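import Mathlib

namespace Pool.Agent.Lib.MP_493d38_lc.KV

variable {α : Type}

/-- `z` read from `a` and `y` read from `b` agree on `L` positions -/
def Eqv (z : List α) (a : ℕ) (y : List α) (b L : ℕ) : Prop := ∀ i, i < L → z[a + i]? = y[b + i]?

/-- every factor of `z` with period `p` has length at most `e * p` -/
def Ap (e : ℕ) (z : List α) : Prop :=
  ∀ p a L, 1 ≤ p → a + p + L ≤ z.length → Eqv z a z (a + p) L → L + p ≤ e * p

theorem Eqv.refl (z : List α) (a L : ℕ) : Eqv z a z a L := fun _ _ => rfl

theorem Eqv.symm {z y : List α} {a b L : ℕ} (h : Eqv z a y b L) : Eqv y b z a L :=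
  fun i hi => (h i hi).symm

theorem Eqv.trans {z y x : List α} {a b c L : ℕ} (h : Eqv z a y b L) (h' : Eqv y b x c L) :
    Eqv z a x c L := fun i hi => (h i hi).trans (h' i hi)

theorem Eqv.sub {z y : List α} {a b L : ℕ} (h : Eqv z a y b L) (a' b' L' : ℕ) (h1 : a ≤ a')
    (h2 : a' + b = b' + a) (h3 : a' + L' ≤ a + L) : Eqv z a' y b' L' := by
  intro i hi
  have := h (a' - a + i) (by omega)
  rwa [show a + (a' - a + i) = a' + i by omega, show b + (a' - a + i) = b' + i by omega] at this

theorem Eqv.at {z y : List α} {a b L : ℕ} (h : Eqv z a y b L) (u v : ℕ) (h1 : a ≤ u)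
    (h2 : u + b = v + a) (h3 : u < a + L) : z[u]? = y[v]? := by
  have := h (u - a) (by omega)
  rwa [show a + (u - a) = u by omega, show b + (u - a) = v by omega] at this

theorem Eqv.fit {z y : List α} {a b L : ℕ} (h : Eqv z a y b L) (hy : b + L ≤ y.length)
    (hL : 0 < L) : a + L ≤ z.length := by
  have := h (L - 1) (by omega)
  by_contra hc
  rw [List.getElem?_eq_none (by omega), eq_comm, List.getElem?_eq_none_iff] at this
  omega

theorem eqv_mid (l y r : List α) : Eqv (l ++ y ++ r) l.length y 0 y.length := by
  intro i hi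
  rw [List.append_assoc, List.getElem?_append_right (by omega), List.getElem?_append_left (by omega)]
  congr 1
  omega

theorem eqv_left (y r : List α) : Eqv (y ++ r) 0 y 0 y.length := by
  intro i hi
  rw [List.getElem?_append_left (by omega)]

theorem eqv_right (l y : List α) : Eqv (l ++ y) l.length y 0 y.length := by
  have := eqv_mid l y []
  rwa [List.append_nil] at this

theorem eqv_fst (x w y : List α) : Eqv (x ++ w ++ y) 0 x 0 x.length := by
  rw [List.append_assoc]
  exact eqv_left x (w ++ y)

theorem eqv_thd (x w y : List α) : Eqv (x ++ w ++ y) (x.length + w.length) y 0 y.length := by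
  have := eqv_right (x ++ w) y
  rwa [List.length_append] at this

theorem eq_of_eqv {w w' : List α} (hl : w.length = w'.length) (h : Eqv w 0 w' 0 w.length) :
    w = w' := by
  apply List.ext_getElem?
  intro i
  by_cases hi : i < w.length
  · have := h i hi
    simpa using this
  · rw [List.getElem?_eq_none (by omega), List.getElem?_eq_none (by omega)]

theorem lemS_right_aux {e n s : ℕ} {x w w' y : List α} (hy : Ap e y) (hw : w'.length ≤ n)
    (hs : (e + 1) * n < s) (hsy : s ≤ y.length) (hle : w.length ≤ w'.length)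
    (h : Eqv (x ++ w ++ y) x.length (x ++ w' ++ y) x.length s) : w = w' := by
  have hn : n ≤ (e + 1) * n := Nat.le_mul_of_pos_left _ (by omega)
  rcases Nat.eq_or_lt_of_le hle with heq | hlt
  · apply eq_of_eqv heq
    have h1 := (eqv_mid x w y).symm
    have h2 := eqv_mid x w' y
    rw [← heq] at h2
    exact (h1.trans (h.sub _ _ _ le_rfl rfl (by omega))).trans h2
  · exfalso
    have h1 := (eqv_thd x w' y).symm.sub 0 (x.length + w'.length) (s - w'.length) le_rfl
      (by omega) (by omega)
    have h2 := h.symm.sub (x.length + w'.length) (x.length + w'.length) (s - w'.length) (by omega)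
      (by omega) (by omega)
    have h3 := (eqv_thd x w y).sub (x.length + w'.length) (0 + (w'.length - w.length))
      (s - w'.length) (by omega) (by omega) (by omega)
    have h4 := hy (w'.length - w.length) 0 (s - w'.length) (by omega) (by omega)
      ((h1.trans h2).trans h3)
    have h5 : e * (w'.length - w.length) ≤ e * n := Nat.mul_le_mul_left _ (by omega)
    have h6 : (e + 1) * n = e * n + n := by ring
    omega

/-- two different short words followed by the same long word disagree early -/
theorem lemS_right {e n s : ℕ} {x w w' y : List α} (hy : Ap e y) (hw : w.length ≤ n)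
    (hw' : w'.length ≤ n) (hs : (e + 1) * n < s) (hsy : s ≤ y.length)
    (h : Eqv (x ++ w ++ y) x.length (x ++ w' ++ y) x.length s) : w = w' := by
  rcases le_total w.length w'.length with hle | hle
  · exact lemS_right_aux hy hw' hs hsy hle h
  · exact (lemS_right_aux hy hw hs hsy hle h.symm).symm

theorem lemS_left_aux {e n s a a' : ℕ} {x w w' y : List α} (hx : Ap e x) (hw : w'.length ≤ n)
    (hs : (e + 1) * n < s) (hsx : s ≤ x.length) (hle : w.length ≤ w'.length)
    (ha : a + s = x.length + w.length) (ha' : a' + s = x.length + w'.length)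
    (h : Eqv (x ++ w ++ y) a (x ++ w' ++ y) a' s) : w = w' := by
  have hn : n ≤ (e + 1) * n := Nat.le_mul_of_pos_left _ (by omega)
  rcases Nat.eq_or_lt_of_le hle with heq | hlt
  · apply eq_of_eqv heq
    have h1 := (eqv_mid x w y).symm
    have h2 := eqv_mid x w' y
    rw [← heq] at h2
    exact (h1.trans (h.sub _ _ _ (by omega) (by omega) (by omega))).trans h2
  · exfalso
    have h1 := (eqv_fst x w y).symm.sub a a (s - w'.length) (by omega) (by omega) (by omega)
    have h2 := h.sub a a' (s - w'.length) le_rfl (by omega) (by omega)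
    have h3 := (eqv_fst x w' y).sub a' (a + (w'.length - w.length)) (s - w'.length) (by omega)
      (by omega) (by omega)
    have h4 := hx (w'.length - w.length) a (s - w'.length) (by omega) (by omega)
      ((h1.trans h2).trans h3)
    have h5 : e * (w'.length - w.length) ≤ e * n := Nat.mul_le_mul_left _ (by omega)
    have h6 : (e + 1) * n = e * n + n := by ring
    omega

/-- two different short words preceded by the same long word disagree early, read backwards -/
theorem lemS_left {e n s a a' : ℕ} {x w w' y : List α} (hx : Ap e x) (hw : w.length ≤ n)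
    (hw' : w'.length ≤ n) (hs : (e + 1) * n < s) (hsx : s ≤ x.length)
    (ha : a + s = x.length + w.length) (ha' : a' + s = x.length + w'.length)
    (h : Eqv (x ++ w ++ y) a (x ++ w' ++ y) a' s) : w = w' := by
  rcases le_total w.length w'.length with hle | hle
  · exact lemS_left_aux hx hw' hs hsx hle ha ha' h
  · exact (lemS_left_aux hx hw hs hsx hle ha' ha h.symm).symm

/-- two occurrences of the same factor at distance `d` give it the period `d` -/
theorem per_of_occ {z x : List α} {g L t t' : ℕ} (h : Eqv z t x g L) (h' : Eqv z t' x g L)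
    (hlt : t ≤ t') (hd : t' ≤ t + L) : Eqv x g x (g + (t' - t)) (L - (t' - t)) :=
  (h'.symm.sub g t' (L - (t' - t)) le_rfl (by omega) (by omega)).trans
    (h.sub t' (g + (t' - t)) _ hlt (by omega) (by omega))

theorem gap_of_occ {e s : ℕ} {z x : List α} {g L t t' : ℕ} (hx : Ap e x) (hg : g + L ≤ x.length)
    (h : Eqv z t x g L) (h' : Eqv z t' x g L) (hlt : t < t') (hs : e * s < L) (hsL : s ≤ L) :
    t + s < t' := by
  by_contra hc
  have h1 := hx (t' - t) g (L - (t' - t)) (by omega) (by omega) (per_of_occ h h' hlt.le (by omega))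
  have h2 : e * (t' - t) ≤ e * s := Nat.mul_le_mul_left _ (by omega)
  omega

/-- three close occurrences of a factor: the first two are followed by the same word -/
theorem three_right {e s θ : ℕ} {z x : List α} {g t1 t2 t3 : ℕ} (hx : Ap e x)
    (hg : g + 2 * θ ≤ x.length) (h1 : Eqv z t1 x g (2 * θ)) (h2 : Eqv z t2 x g (2 * θ))
    (h3 : Eqv z t3 x g (2 * θ)) (h12 : t1 < t2) (h23 : t2 < t3) (h13 : t3 ≤ t1 + θ)
    (hs : e * s < 2 * θ) (hsθ : s ≤ θ) : Eqv z (t1 + 2 * θ) z (t2 + 2 * θ) s := by
  have g23 := gap_of_occ hx hg h2 h3 h23 hs (by omega)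
  have p13 := per_of_occ h1 h3 (by omega) (by omega)
  have p23 := per_of_occ h2 h3 (by omega) (by omega)
  intro i hi
  rw [h3.at (t1 + 2 * θ + i) (g + (t1 + 2 * θ + i - t3)) (by omega) (by omega) (by omega),
    h3.at (t2 + 2 * θ + i) (g + (t2 + 2 * θ + i - t3)) (by omega) (by omega) (by omega),
    ← p13.at (g + (t1 + 2 * θ + i - t3) - (t3 - t2)) (g + (t2 + 2 * θ + i - t3)) (by omega)
      (by omega) (by omega),
    p23.at (g + (t1 + 2 * θ + i - t3) - (t3 - t2)) (g + (t1 + 2 * θ + i - t3)) (by omega)
      (by omega) (by omega)]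

/-- three close occurrences of a factor: the last two are preceded by the same word -/
theorem three_left {e s θ : ℕ} {z x : List α} {g t1 t2 t3 a2 a3 : ℕ} (hx : Ap e x)
    (hg : g + 2 * θ ≤ x.length) (h1 : Eqv z t1 x g (2 * θ)) (h2 : Eqv z t2 x g (2 * θ))
    (h3 : Eqv z t3 x g (2 * θ)) (h12 : t1 < t2) (h23 : t2 < t3) (h13 : t3 ≤ t1 + θ)
    (hs : e * s < 2 * θ) (hsθ : s ≤ θ) (ha2 : a2 + s = t2) (ha3 : a3 + s = t3) :
    Eqv z a2 z a3 s := by
  have g12 := gap_of_occ hx hg h1 h2 h12 hs (by omega)
  have p13 := per_of_occ h1 h3 (by omega) (by omega)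
  have p12 := per_of_occ h1 h2 (by omega) (by omega)
  intro i hi
  rw [h1.at (a2 + i) (g + (a2 + i - t1)) (by omega) (by omega) (by omega),
    h1.at (a3 + i) (g + (a3 + i - t1)) (by omega) (by omega) (by omega),
    p13.at (g + (a2 + i - t1)) (g + (a2 + i - t1) + (t3 - t1)) (by omega) (by omega) (by omega),
    p12.at (g + (a3 + i - t1)) (g + (a2 + i - t1) + (t3 - t1)) (by omega) (by omega) (by omega)]

/-- the factor of `z` between positions `u` and `v` -/
def sl (z : List α) (u v : ℕ) : List α := (z.drop u).take (v - u)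

theorem sl_get (z : List α) (u v i : ℕ) :
    (sl z u v)[i]? = if i < v - u then z[u + i]? else none := by
  unfold sl
  rw [List.getElem?_take]
  split_ifs
  · rw [List.getElem?_drop]
  · rfl

theorem sl_length {z : List α} {u v : ℕ} (hv : v ≤ z.length) : (sl z u v).length = v - u := by
  unfold sl
  rw [List.length_take, List.length_drop]
  omega

theorem sl_length_le (z : List α) (u v : ℕ) : (sl z u v).length ≤ v - u := by
  unfold sl
  rw [List.length_take]
  omega

theorem sl_eq_of_eqv {z y : List α} {u v u' v' : ℕ} (hl : v - u = v' - u')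
    (h : Eqv z u y u' (v - u)) : sl z u v = sl y u' v' := by
  apply List.ext_getElem?
  intro i
  rw [sl_get, sl_get, ← hl]
  split_ifs with hi
  · exact h i hi
  · rfl

theorem eqv_of_sl_eq {z y : List α} {u v u' v' : ℕ} (hv : v ≤ z.length) (hv' : v' ≤ y.length)
    (h : sl z u v = sl y u' v') : v - u = v' - u' ∧ Eqv z u y u' (v - u) := by
  have hl : v - u = v' - u' := by rw [← sl_length hv, ← sl_length hv', h]
  refine ⟨hl, fun i hi => ?_⟩
  have h1 := sl_get z u v i
  have h2 := sl_get y u' v' i
  rw [if_pos hi] at h1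
  rw [if_pos (hl ▸ hi)] at h2
  rw [← h1, ← h2, h]

theorem sl_append (z : List α) {u m v : ℕ} (h1 : u ≤ m) (h2 : m ≤ v) :
    sl z u m ++ sl z m v = sl z u v := by
  unfold sl
  rw [show v - u = (m - u) + (v - m) by omega, List.take_add, List.drop_drop,
    show u + (m - u) = m by omega]

theorem sl_self (z : List α) (u : ℕ) : sl z u u = [] := by simp [sl]

theorem sl_full (z : List α) : sl z 0 z.length = z := by simp [sl]

theorem sl_ctx (x w y : List α) {a b : ℕ} (ha : a ≤ x.length) (hb : b ≤ y.length) :
    sl (x ++ w ++ y) a (x.length + w.length + b) = sl x a x.length ++ w ++ sl y 0 b := by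
  rw [← sl_append (x ++ w ++ y) (m := x.length + w.length) (by omega) (by omega),
    ← sl_append (x ++ w ++ y) (u := a) (m := x.length) (v := x.length + w.length) ha (by omega)]
  congr 1
  · congr 1
    · exact sl_eq_of_eqv rfl ((eqv_fst x w y).sub _ _ _ (by omega) (by omega) (by omega))
    · rw [← sl_full w]
      exact sl_eq_of_eqv (by simp [sl_full]) (by
        rw [sl_full]; exact (eqv_mid x w y).sub _ _ _ (by omega) (by omega) (by omega))
  · exact sl_eq_of_eqv (by omega) ((eqv_thd x w y).sub _ _ _ (by omega) (by omega) (by omega))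

end Pool.Agent.Lib.MP_493d38_lc.KV
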