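import Mathlib
import Pool.Agent.Lib.MP_493d38_lc.KV.Basic

namespace Pool.Agent.Lib.MP_493d38_lc.KV

open Classical

variable {α : Type}

/-- number of `i < x` with `D i` -/
noncomputable def cnt (D : ℕ → Prop) : ℕ → ℕ
  | 0 => 0
  | x + 1 => cnt D x + if D x then 1 else 0

/-- number of consecutive positions with `b` immediately before `i` -/
noncomputable def back (b : ℕ → Prop) : ℕ → ℕ
  | 0 => 0
  | i + 1 => if b i then back b i + 1 else 0

/-- number of consecutive positions with `b` starting at `i` -/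
noncomputable def fwd (b : ℕ → Prop) (i : ℕ) : ℕ := sInf {j | ¬ b (i + j)}

/-- sum of `y` over the lengths of the blocks of `b` that end before `x` -/
noncomputable def Sm (y : ℕ → ℕ) (b : ℕ → Prop) : ℕ → ℕ
  | 0 => 0
  | i + 1 => Sm y b i + if b i then 0 else y (back b i)

/-- the first `y l * p` positions of each block of length `l` -/
def Del (y : ℕ → ℕ) (p : ℕ) (b : ℕ → Prop) (i : ℕ) : Prop :=
  b i ∧ back b i < y (back b i + fwd b i) * p

/-- delete the positions in `D` -/
noncomputable def del : List α → (ℕ → Prop) → List α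
  | [], _ => []
  | a :: z, D => (if D 0 then [] else [a]) ++ del z (fun i => D (i + 1))

theorem cnt_pos {D : ℕ → Prop} {x : ℕ} (h : D x) : cnt D (x + 1) = cnt D x + 1 := by
  simp [cnt, h]

theorem cnt_neg {D : ℕ → Prop} {x : ℕ} (h : ¬ D x) : cnt D (x + 1) = cnt D x := by
  simp [cnt, h]

theorem cnt_add_le (D : ℕ → Prop) (x k : ℕ) : cnt D (x + k) ≤ cnt D x + k := by
  induction k with
  | zero => simp
  | succ k ih =>
    rw [← Nat.add_assoc]
    by_cases h : D (x + k)
    · rw [cnt_pos h]; omega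
    · rw [cnt_neg h]; omega

theorem cnt_le (D : ℕ → Prop) (x : ℕ) : cnt D x ≤ x := by
  have := cnt_add_le D 0 x
  simpa [cnt] using this

theorem cnt_mono (D : ℕ → Prop) {x x' : ℕ} (h : x ≤ x') : cnt D x ≤ cnt D x' := by
  induction h with
  | refl => exact le_rfl
  | step _ ih => exact ih.trans (by simp [cnt])

theorem cnt_imp {D D' : ℕ → Prop} (x : ℕ) (h : ∀ i, i < x → D i → D' i) :
    cnt D x ≤ cnt D' x := by
  induction x with
  | zero => simp [cnt]
  | succ x ih =>
    have := ih (fun i hi => h i (by omega))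
    by_cases h1 : D x
    · rw [cnt_pos h1, cnt_pos (h x (by omega) h1)]; omega
    · rw [cnt_neg h1]; exact this.trans (cnt_mono _ (by omega))

theorem cnt_shift (D : ℕ → Prop) (a x : ℕ) :
    cnt D (a + x) = cnt D a + cnt (fun i => D (a + i)) x := by
  induction x with
  | zero => simp [cnt]
  | succ x ih => rw [← Nat.add_assoc]; simp only [cnt, ih]; omega

theorem cnt_false (x : ℕ) : cnt (fun _ => False) x = 0 := by
  induction x with
  | zero => rfl
  | succ x ih => simp [cnt, ih]

theorem del_append (z z' : List α) (D : ℕ → Prop) :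
    del (z ++ z') D = del z D ++ del z' (fun i => D (z.length + i)) := by
  induction z generalizing D with
  | nil => simp [del]
  | cons a z ih =>
    simp only [List.cons_append, del, ih, List.append_assoc, List.length_cons]
    congr 3
    funext i
    congr 1
    omega

theorem del_congr (z : List α) {D D' : ℕ → Prop} (h : ∀ i, i < z.length → (D i ↔ D' i)) :
    del z D = del z D' := by
  induction z generalizing D D' with
  | nil => rfl
  | cons a z ih =>
    simp only [del]
    rw [ih (D := fun i => D (i + 1)) (D' := fun i => D' (i + 1))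
      (fun i hi => h (i + 1) (by simp; omega))]
    have := h 0 (by simp)
    simp only [this]

theorem del_length (z : List α) (D : ℕ → Prop) :
    (del z D).length + cnt D z.length = z.length := by
  induction z using List.reverseRecOn with
  | nil => rfl
  | append_singleton z a ih =>
    rw [del_append, List.length_append, List.length_append]
    by_cases h : D z.length
    · simp only [del, List.length_singleton, cnt_pos h, Nat.add_zero, h, if_true]
      simp; omega
    · simp only [del, List.length_singleton, cnt_neg h, Nat.add_zero, h, if_false]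
      simp; omega

theorem del_get (z : List α) (D : ℕ → Prop) (x : ℕ) (hx : x < z.length) (h : ¬ D x) :
    (del z D)[x - cnt D x]? = z[x]? := by
  have hz : z = z.take x ++ (z[x] :: z.drop (x + 1)) := by simp
  have hl : (z.take x).length = x := by simp; omega
  have h1 := del_length (z.take x) D
  rw [hl] at h1
  conv_lhs => rw [hz, del_append]
  rw [List.getElem?_append_right (by omega), show x - cnt D x - (del (z.take x) D).length = 0 by
    omega, hl]
  simp [del, h, hx]

theorem del_surj (D : ℕ → Prop) (N r : ℕ) (hr : r + cnt D N < N) :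
    ∃ x, x < N ∧ ¬ D x ∧ x = r + cnt D x := by
  induction N with
  | zero => omega
  | succ N ih =>
    by_cases h : D N
    · rw [cnt_pos h] at hr
      obtain ⟨x, h1, h2, h3⟩ := ih (by omega)
      exact ⟨x, by omega, h2, h3⟩
    · rw [cnt_neg h] at hr
      by_cases h' : r + cnt D N < N
      · obtain ⟨x, h1, h2, h3⟩ := ih h'
        exact ⟨x, by omega, h2, h3⟩
      · exact ⟨N, by omega, h, by omega⟩

theorem del_eq_aux {W : List α} {p : ℕ} {b D1 D2 : ℕ → Prop}
    (hb : ∀ i, b i → W[i]? = W[i + p]?) (hD2 : ∀ x, D2 x → b x)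
    (hc : ∀ x, ¬ b x → cnt D1 x = cnt D2 x) {r x1 x2 : ℕ} (hle : x1 ≤ x2)
    (e1 : x1 = r + cnt D1 x1) (e2 : x2 = r + cnt D2 x2) (d1 : p ∣ cnt D1 x1)
    (d2 : p ∣ cnt D2 x2) : W[x1]? = W[x2]? := by
  have hall : ∀ x, x1 ≤ x → x < x2 → b x := by
    intro x h1 h2
    by_contra hx
    have a1 := cnt_add_le D1 x1 (x - x1)
    have a2 := cnt_add_le D2 (x + 1) (x2 - (x + 1))
    rw [show x1 + (x - x1) = x by omega] at a1
    rw [show x + 1 + (x2 - (x + 1)) = x2 by omega, cnt_neg (fun h => hx (hD2 x h))] at a2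
    have := hc x hx
    omega
  obtain ⟨m, hm⟩ : p ∣ x2 - x1 := by
    rw [show x2 - x1 = cnt D2 x2 - cnt D1 x1 by omega]
    exact Nat.dvd_sub d2 d1
  have key : ∀ j, j ≤ m → W[x1]? = W[x1 + p * j]? := by
    intro j
    induction j with
    | zero => simp
    | succ j ih =>
      intro hj
      have h1 : p * (j + 1) ≤ p * m := Nat.mul_le_mul_left _ hj
      have h2 : p * (j + 1) = p * j + p := by ring
      rw [ih (by omega), h2, ← Nat.add_assoc]
      rcases Nat.eq_zero_or_pos p with hp | hp
      · simp [hp]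
      · exact hb _ (hall _ (by omega) (by omega))
  rw [key m le_rfl, ← hm]
  congr 1
  omega

theorem del_eq {W : List α} {p : ℕ} {b D1 D2 : ℕ → Prop}
    (hb : ∀ i, b i → W[i]? = W[i + p]?) (hN : ¬ b W.length)
    (hD1 : ∀ x, D1 x → b x) (hD2 : ∀ x, D2 x → b x)
    (hc : ∀ x, ¬ b x → cnt D1 x = cnt D2 x) (d1 : ∀ x, ¬ D1 x → p ∣ cnt D1 x)
    (d2 : ∀ x, ¬ D2 x → p ∣ cnt D2 x) : del W D1 = del W D2 := by
  have l1 := del_length W D1
  have l2 := del_length W D2
  have l3 := hc _ hN
  apply List.ext_getElem?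
  intro r
  by_cases hr : r < (del W D1).length
  · obtain ⟨x1, h1, n1, e1⟩ := del_surj D1 W.length r (by omega)
    obtain ⟨x2, h2, n2, e2⟩ := del_surj D2 W.length r (by omega)
    have g1 := del_get W D1 x1 h1 n1
    have g2 := del_get W D2 x2 h2 n2
    rw [show x1 - cnt D1 x1 = r by omega] at g1
    rw [show x2 - cnt D2 x2 = r by omega] at g2
    rw [g1, g2]
    rcases le_total x1 x2 with hle | hle
    · exact del_eq_aux hb hD2 hc hle e1 e2 (d1 _ n1) (d2 _ n2)
    · exact (del_eq_aux hb hD1 (fun x hx => (hc x hx).symm) hle e2 e1 (d2 _ n2) (d1 _ n1)).symm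
  · rw [List.getElem?_eq_none (by omega), List.getElem?_eq_none (by omega)]

theorem back_pos {b : ℕ → Prop} {i : ℕ} (h : b i) : back b (i + 1) = back b i + 1 := by
  simp [back, h]

theorem back_neg {b : ℕ → Prop} {i : ℕ} (h : ¬ b i) : back b (i + 1) = 0 := by
  simp [back, h]

theorem back_le (b : ℕ → Prop) (i : ℕ) : back b i ≤ i := by
  induction i with
  | zero => simp [back]
  | succ i ih =>
    by_cases h : b i
    · rw [back_pos h]; omega
    · rw [back_neg h]; omega

theorem back_spec (b : ℕ → Prop) (i j : ℕ) (h1 : j < i) (h2 : i ≤ j + back b i) : b j := by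
  induction i with
  | zero => omega
  | succ i ih =>
    by_cases h : b i
    · rw [back_pos h] at h2
      rcases Nat.lt_succ_iff_lt_or_eq.mp h1 with h3 | h3
      · exact ih h3 (by omega)
      · rwa [h3]
    · rw [back_neg h] at h2; omega

theorem back_stop (b : ℕ → Prop) (i j : ℕ) (h : i = j + 1 + back b i) : ¬ b j := by
  induction i with
  | zero => omega
  | succ i ih =>
    by_cases h' : b i
    · rw [back_pos h'] at h
      exact ih (by omega)
    · rw [back_neg h'] at h
      rwa [show j = i by omega]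

theorem back_ge (b : ℕ → Prop) (a L : ℕ) (h : ∀ j, j < L → b (a + j)) : L ≤ back b (a + L) := by
  induction L with
  | zero => omega
  | succ L ih =>
    rw [← Nat.add_assoc, back_pos (h L (by omega))]
    have := ih (fun j hj => h j (by omega))
    omega

theorem back_congr {b b' : ℕ → Prop} {o L : ℕ} (h : ∀ j, j < L → (b (o + j) ↔ b' j))
    (h0 : back b o = 0) (j : ℕ) (hj : j ≤ L) : back b (o + j) = back b' j := by
  induction j with
  | zero => simpa [back] using h0
  | succ j ih =>
    rw [← Nat.add_assoc]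
    have := h j (by omega)
    by_cases h1 : b' j
    · rw [back_pos h1, back_pos (this.mpr h1), ih (by omega)]
    · rw [back_neg h1, back_neg (fun h2 => h1 (this.mp h2))]

theorem fwd_eq {b : ℕ → Prop} {i j : ℕ} (h1 : ¬ b (i + j)) (h2 : ∀ j', j' < j → b (i + j')) :
    fwd b i = j := by
  apply le_antisymm (Nat.sInf_le h1)
  by_contra hc
  have : ¬ b (i + fwd b i) := Nat.sInf_mem (s := {j | ¬ b (i + j)}) ⟨j, h1⟩
  exact this (h2 _ (by unfold fwd; omega))

theorem fwd_spec {b : ℕ → Prop} {i j0 : ℕ} (h0 : ¬ b (i + j0)) :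
    ¬ b (i + fwd b i) ∧ fwd b i ≤ j0 ∧ ∀ j, j < fwd b i → b (i + j) := by
  refine ⟨Nat.sInf_mem (s := {j | ¬ b (i + j)}) ⟨j0, h0⟩, Nat.sInf_le h0, fun j hj => ?_⟩
  by_contra hc
  have : fwd b i ≤ j := Nat.sInf_le hc
  omega

theorem fwd_congr {b b' : ℕ → Prop} {i i' j0 : ℕ} (h0 : ¬ b (i + j0))
    (h : ∀ j, j ≤ j0 → (b (i + j) ↔ b' (i' + j))) : fwd b' i' = fwd b i := by
  obtain ⟨h1, h2, h3⟩ := fwd_spec h0
  exact fwd_eq (fun hc => h1 ((h _ h2).mpr hc)) (fun j hj => (h j (by omega)).mp (h3 j hj))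

theorem fwd_succ {b : ℕ → Prop} {i : ℕ} (hb : ∃ j, ¬ b (i + 1 + j)) (h : b i) :
    fwd b i = fwd b (i + 1) + 1 := by
  obtain ⟨j0, h0⟩ := hb
  obtain ⟨h1, _, h3⟩ := fwd_spec h0
  apply fwd_eq
  · rwa [show i + (fwd b (i + 1) + 1) = i + 1 + fwd b (i + 1) by omega]
  · intro j hj
    rcases j with _ | j
    · exact h
    · rw [show i + (j + 1) = i + 1 + j by omega]
      exact h3 j (by omega)

theorem cnt_Del {y : ℕ → ℕ} {p : ℕ} {b : ℕ → Prop} (hy : ∀ l, y l * p ≤ l)
    (hb : ∀ i, ∃ j, ¬ b (i + j)) (x : ℕ) :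
    cnt (Del y p b) x = p * Sm y b x + min (back b x) (y (back b x + fwd b x) * p) := by
  induction x with
  | zero => simp [cnt, Sm, back]
  | succ x ih =>
    by_cases h : b x
    · have e1 : back b (x + 1) + fwd b (x + 1) = back b x + fwd b x := by
        rw [back_pos h, fwd_succ (hb (x + 1)) h]; omega
      rw [e1, back_pos h]
      have e2 : Sm y b (x + 1) = Sm y b x := by simp [Sm, h]
      rw [e2]
      by_cases hd : Del y p b x
      · rw [cnt_pos hd, ih]
        have := hd.2
        omega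
      · rw [cnt_neg hd, ih]
        have : ¬ back b x < y (back b x + fwd b x) * p := fun hc => hd ⟨h, hc⟩
        omega
    · have e2 : Sm y b (x + 1) = Sm y b x + y (back b x) := by simp [Sm, h]
      have e3 : fwd b x = 0 := fwd_eq (by simpa using h) (by omega)
      rw [cnt_neg (fun hd => h hd.1), ih, back_neg h, e2, e3, Nat.add_zero,
        min_eq_right (hy _)]
      simp
      ring

theorem cnt_Del_zero {y : ℕ → ℕ} {p : ℕ} {b : ℕ → Prop} (hy : ∀ l, y l * p ≤ l)
    (hb : ∀ i, ∃ j, ¬ b (i + j)) (x : ℕ) (h : ¬ b x) :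
    cnt (Del y p b) x = p * Sm y b (x + 1) := by
  have := cnt_Del hy hb (x + 1)
  rw [cnt_neg (fun hd => h hd.1), back_neg h] at this
  simpa using this

theorem dvd_cnt_Del {y : ℕ → ℕ} {p : ℕ} {b : ℕ → Prop} (hy : ∀ l, y l * p ≤ l)
    (hb : ∀ i, ∃ j, ¬ b (i + j)) (x : ℕ) (h : ¬ Del y p b x) : p ∣ cnt (Del y p b) x := by
  by_cases h1 : b x
  · have : ¬ back b x < y (back b x + fwd b x) * p := fun hc => h ⟨h1, hc⟩
    rw [cnt_Del hy hb, min_eq_right (by omega)]
    exact Nat.dvd_add (Dvd.intro _ rfl) (Dvd.intro_left _ rfl)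
  · rw [cnt_Del_zero hy hb x h1]
    exact Dvd.intro _ rfl

end Pool.Agent.Lib.MP_493d38_lc.KV
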