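import Mathlib
import Pool.Agent.Lib.MP_493d38_lc.KV.Del

namespace Pool.Agent.Lib.MP_493d38_lc.KV

open Classical

variable {α : Type}

/-- position `i` of `z` repeats `p` positions later -/
def bt (p : ℕ) (z : List α) (i : ℕ) : Prop := i + p < z.length ∧ z[i]? = z[i + p]?

/-- a property of positions in words, read on a concatenation -/
def tok (f : List α → ℕ → Prop) : List (List α) → ℕ → Prop
  | [], _ => False
  | z :: ws, i => if i < z.length then f z i else tok f ws (i - z.length)

theorem tok_lt (f : List α → ℕ → Prop) (z : List α) (ws : List (List α)) {i : ℕ}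
    (h : i < z.length) : tok f (z :: ws) i ↔ f z i := by
  simp [tok, h]

theorem tok_add (f : List α → ℕ → Prop) (z : List α) (ws : List (List α)) (i : ℕ) :
    tok f (z :: ws) (z.length + i) ↔ tok f ws i := by
  simp [tok]

theorem tok_out (f : List α → ℕ → Prop) (ws : List (List α)) (i : ℕ)
    (h : ws.flatten.length ≤ i) : ¬ tok f ws i := by
  induction ws generalizing i with
  | nil => simp [tok]
  | cons z ws ih =>
    simp only [List.flatten_cons, List.length_append] at h
    rw [show i = z.length + (i - z.length) by omega, tok_add]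
    exact ih _ (by omega)

theorem cnt_tok (f : List α → ℕ → Prop) (c : ℕ) (hf : ∀ z, cnt (f z) z.length ≤ c)
    (ws : List (List α)) (x : ℕ) : cnt (tok f ws) x ≤ ws.length * c := by
  induction ws generalizing x with
  | nil =>
    have : tok f [] = fun _ => False := by funext i; rfl
    rw [this, cnt_false]; omega
  | cons z ws ih =>
    have h1 : cnt (tok f (z :: ws)) x ≤ cnt (tok f (z :: ws)) (z.length + x) :=
      cnt_mono _ (by omega)
    rw [cnt_shift] at h1
    have h2 : cnt (tok f (z :: ws)) z.length ≤ cnt (f z) z.length :=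
      cnt_imp _ (fun i hi h => (tok_lt f z ws hi).mp h)
    have h3 : cnt (fun i => tok f (z :: ws) (z.length + i)) x ≤ cnt (tok f ws) x :=
      cnt_imp _ (fun i _ h => (tok_add f z ws i).mp h)
    have := hf z
    have := ih x
    rw [List.length_cons, Nat.add_mul]
    omega

theorem bt_end {p : ℕ} (hp : 1 ≤ p) (z : List α) (i : ℕ) (h : z.length ≤ i + 1) :
    ¬ bt p z i := fun hc => by have := hc.1; omega

theorem back_tok {p : ℕ} (hp : 1 ≤ p) (z : List α) (ws : List (List α)) (j : ℕ) :
    back (tok (bt p) (z :: ws)) (z.length + j) = back (tok (bt p) ws) j := by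
  refine back_congr (L := j) (fun i _ => tok_add _ z ws i) ?_ j le_rfl
  rcases Nat.eq_zero_or_pos z.length with h | h
  · rw [h]; rfl
  · rw [show z.length = z.length - 1 + 1 by omega]
    apply back_neg
    rw [tok_lt _ _ _ (by omega)]
    exact bt_end hp z _ (by omega)

theorem del_flatten {p : ℕ} (hp : 1 ≤ p) (y : ℕ → ℕ) (ws : List (List α)) :
    del ws.flatten (Del y p (tok (bt p) ws)) =
      (ws.map fun z => del z (Del y p (bt p z))).flatten := by
  induction ws with
  | nil => rfl
  | cons z ws ih =>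
    rw [List.flatten_cons, del_append, List.map_cons, List.flatten_cons, ← ih]
    congr 1
    · apply del_congr
      intro i hi
      have e1 : back (tok (bt p) (z :: ws)) i = back (bt p z) i := by
        have := back_congr (b := tok (bt p) (z :: ws)) (b' := bt p z) (o := 0) (L := z.length)
          (fun j hj => by rw [Nat.zero_add]; exact tok_lt _ _ _ hj) rfl i hi.le
        rwa [Nat.zero_add] at this
      have e2 : fwd (tok (bt p) (z :: ws)) i = fwd (bt p z) i :=
        fwd_congr (j0 := z.length - 1 - i) (bt_end hp z _ (by omega))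
          (fun j hj => (tok_lt _ _ _ (by omega)).symm)
      unfold Del
      rw [e1, e2, tok_lt _ _ _ hi]
    · apply del_congr
      intro i _
      have e2 : fwd (tok (bt p) (z :: ws)) (z.length + i) = fwd (tok (bt p) ws) i :=
        fwd_congr (j0 := ws.flatten.length) (tok_out _ _ _ (by omega))
          (fun j _ => by rw [Nat.add_assoc, tok_add])
      unfold Del
      rw [back_tok hp, e2, tok_add]

theorem tok_loc {p : ℕ} (hp : 1 ≤ p) (ws : List (List α)) (i : ℕ) (hi : i < ws.flatten.length) :
    ∃ z ∈ ws, ∃ o j, i = o + j ∧ j < z.length ∧ o + z.length ≤ ws.flatten.length ∧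
      Eqv ws.flatten o z 0 z.length ∧ back (tok (bt p) ws) o = 0 ∧
      ∀ f : List α → ℕ → Prop, ∀ j', j' < z.length → (tok f ws (o + j') ↔ f z j') := by
  induction ws generalizing i with
  | nil => simp at hi
  | cons z ws ih =>
    by_cases h : i < z.length
    · refine ⟨z, by simp, 0, i, by omega, h, by simp, ?_, rfl, fun f j' hj' => ?_⟩
      · rw [List.flatten_cons]; exact eqv_left _ _
      · rw [Nat.zero_add]; exact tok_lt _ _ _ hj'
    · simp only [List.flatten_cons, List.length_append] at hi
      obtain ⟨z', hz', o, j, h1, h2, h3, h4, h5, h6⟩ := ih (i - z.length) (by omega)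
      refine ⟨z', by simp [hz'], z.length + o, j, by omega, h2, ?_, ?_, ?_, fun f j' hj' => ?_⟩
      · simp only [List.flatten_cons, List.length_append]; omega
      · rw [List.flatten_cons]
        exact ((eqv_right z ws.flatten).sub _ o z'.length (by omega) (by omega) (by omega)).trans h4
      · rw [back_tok hp, h5]
      · rw [Nat.add_assoc, tok_add]; exact h6 f j' hj'

/-- comparison of the block sums of a word and of its tokens -/
theorem Sm_compare {y : ℕ → ℕ} {bW bU : ℕ → Prop} {n p t M : ℕ} (hM : 4 * t * n * p < M)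
    (hY : ∀ (l : ℕ) (v : ℤ), 2 * |(t : ℤ) * l - M * v| < M → (y l : ℤ) = v)
    (F1 : ∀ i, bU i → bW i)
    (F2 : ∀ x, cnt (fun i => bW i ∧ ¬ bU i) x ≤ n * p)
    (F3 : ∀ x, cnt (fun i => bW i ∧ ¬ bU i ∧ 0 < back bU i) x ≤ n)
    (F4 : ∀ i, ¬ bU i → 0 < back bU i → (bW i ∨ back bU i < back bW i) →
      4 * ((n : ℤ) + 1) * |(t : ℤ) * back bU i - M * y (back bU i)| ≤ M)
    (x : ℕ) (hx : ¬ bW x) : Sm y bU (x + 1) = Sm y bW (x + 1) := by
  have y0 : y 0 = 0 := by
    have := hY 0 0 (by simp; omega)
    exact_mod_cast this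
  have inv : ∀ x, back bU x ≤ back bW x ∧ (back bU x = back bW x → Sm y bU x = Sm y bW x) ∧
      4 * ((n : ℤ) + 1) * |(t : ℤ) * (back bW x - back bU x) - M * (Sm y bU x - Sm y bW x)| ≤
        cnt (fun i => bW i ∧ ¬ bU i ∧ 0 < back bU i) x * M +
          4 * ((n : ℤ) + 1) * t * cnt (fun i => bW i ∧ ¬ bU i) x := by
    intro x
    induction x with
    | zero => simp [back, Sm, cnt]
    | succ x ih =>
      obtain ⟨i1, i2, i3⟩ := ih
      by_cases hU : bU x
      · have hW := F1 x hU
        rw [back_pos hU, back_pos hW, cnt_neg (fun h => h.2.1 hU), cnt_neg (fun h => h.2 hU)]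
        simp only [Sm, hU, hW, if_true, Nat.add_zero]
        refine ⟨by omega, fun h => i2 (by omega), ?_⟩
        push_cast
        rw [show (back bW x : ℤ) + 1 - (back bU x + 1) = back bW x - back bU x by ring]
        exact i3
      · by_cases hW : bW x
        · rw [back_neg hU, back_pos hW, cnt_pos (D := fun i => bW i ∧ ¬ bU i) ⟨hW, hU⟩]
          simp only [Sm, hU, hW, if_true, if_false, Nat.add_zero]
          refine ⟨by omega, fun h => by omega, ?_⟩
          push_cast
          have tri : |(t : ℤ) * (back bW x + 1 - 0) - M * (Sm y bU x + y (back bU x) - Sm y bW x)|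
              ≤ |(t : ℤ) * (back bW x - back bU x) - M * (Sm y bU x - Sm y bW x)| +
                |(t : ℤ) * back bU x - M * y (back bU x)| + t := by
            have := abs_add_three ((t : ℤ) * (back bW x - back bU x) - M * (Sm y bU x - Sm y bW x))
              ((t : ℤ) * back bU x - M * y (back bU x)) t
            rw [Nat.abs_cast] at this
            refine le_trans (le_of_eq ?_) this
            congr 1
            ring
          have hn : (0 : ℤ) ≤ 4 * ((n : ℤ) + 1) := by positivity
          have tri' := mul_le_mul_of_nonneg_left tri hn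
          by_cases h0 : 0 < back bU x
          · rw [cnt_pos (D := fun i => bW i ∧ ¬ bU i ∧ 0 < back bU i) ⟨hW, hU, h0⟩]
            have := F4 x hU h0 (Or.inl hW)
            push_cast
            nlinarith
          · rw [cnt_neg (D := fun i => bW i ∧ ¬ bU i ∧ 0 < back bU i) (fun h => h0 h.2.2)]
            have e0 : back bU x = 0 := by omega
            have : |(t : ℤ) * back bU x - M * y (back bU x)| = 0 := by rw [e0, y0]; simp
            nlinarith
        · rw [back_neg hU, back_neg hW]
          have key : Sm y bU (x + 1) = Sm y bW (x + 1) := by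
            simp only [Sm, hU, hW, if_false]
            rcases Nat.eq_or_lt_of_le i1 with h | h
            · rw [i2 h, h]
            · have g : 4 * ((n : ℤ) + 1) * |(t : ℤ) * back bU x - M * y (back bU x)| ≤ M := by
                by_cases h0 : 0 < back bU x
                · exact F4 x hU h0 (Or.inr h)
                · have e0 : back bU x = 0 := by omega
                  rw [e0, y0]; simp
              have tri : |(t : ℤ) * back bW x - M * (Sm y bU x + y (back bU x) - Sm y bW x)|
                  ≤ |(t : ℤ) * (back bW x - back bU x) - M * (Sm y bU x - Sm y bW x)| +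
                    |(t : ℤ) * back bU x - M * y (back bU x)| := by
                refine le_trans (le_of_eq ?_) (abs_add_le _ _)
                congr 1
                ring
              have hn : (0 : ℤ) ≤ 4 * ((n : ℤ) + 1) := by positivity
              have tri' := mul_le_mul_of_nonneg_left tri hn
              have f2 : (cnt (fun i => bW i ∧ ¬ bU i) x : ℤ) ≤ n * p := by exact_mod_cast F2 x
              have f3 : (cnt (fun i => bW i ∧ ¬ bU i ∧ 0 < back bU i) x : ℤ) ≤ n := by
                exact_mod_cast F3 x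
              have hM' : (4 : ℤ) * t * n * p < M := by exact_mod_cast hM
              have a1 : (cnt (fun i => bW i ∧ ¬ bU i ∧ 0 < back bU i) x : ℤ) * M ≤ n * M :=
                mul_le_mul_of_nonneg_right f3 (by positivity)
              have a2 : 4 * ((n : ℤ) + 1) * t * cnt (fun i => bW i ∧ ¬ bU i) x ≤
                  4 * ((n : ℤ) + 1) * t * (n * p) := mul_le_mul_of_nonneg_left f2 (by positivity)
              have a3 : ((n : ℤ) + 1) * (4 * t * n * p) < ((n : ℤ) + 1) * M :=
                mul_lt_mul_of_pos_left hM' (by positivity)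
              have a4 : ((n : ℤ) + 1) * (4 * |(t : ℤ) * back bW x -
                  M * (Sm y bU x + y (back bU x) - Sm y bW x)|) < ((n : ℤ) + 1) * (2 * M) := by
                nlinarith
              have a5 := lt_of_mul_lt_mul_left a4 (by positivity)
              have := hY (back bW x) (Sm y bU x + y (back bU x) - Sm y bW x) (by linarith)
              omega
          refine ⟨le_rfl, fun _ => key, ?_⟩
          rw [key]
          simp
          positivity
  have := (inv (x + 1)).2.1
  rw [back_neg hx, back_neg (fun h => hx (F1 x h))] at this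
  exact this rfl

theorem cnt_tail (p : ℕ) (z : List α) : cnt (fun j => z.length ≤ j + p) z.length ≤ p := by
  by_cases h : z.length ≤ p
  · exact (cnt_le _ _).trans h
  · have h1 := cnt_add_le (fun j => z.length ≤ j + p) (z.length - p) p
    rw [show z.length - p + p = z.length by omega] at h1
    have h2 : cnt (fun j => z.length ≤ j + p) (z.length - p) ≤ cnt (fun _ => False) (z.length - p) :=
      cnt_imp _ (fun i hi h => by omega)
    rw [cnt_false] at h2
    omega

theorem cnt_one (c x : ℕ) (D : ℕ → Prop) (h : ∀ j, D j → j = c) : cnt D x ≤ 1 := by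
  have h1 : cnt D x ≤ cnt D (c + 1 + x) := cnt_mono _ (by omega)
  rw [cnt_shift] at h1
  have h2 : cnt (fun i => D (c + 1 + i)) x ≤ cnt (fun _ => False) x :=
    cnt_imp _ (fun i _ hi => by have := h _ hi; omega)
  have h3 : cnt D c ≤ cnt (fun _ => False) c := cnt_imp _ (fun i hi hd => by have := h _ hd; omega)
  have h4 := cnt_add_le D c 1
  rw [cnt_false] at h2 h3
  omega

theorem tok_bt_imp {p : ℕ} (hp : 1 ≤ p) (ws : List (List α)) (i : ℕ) (h : tok (bt p) ws i) :
    bt p ws.flatten i := by
  have hi : i < ws.flatten.length := by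
    by_contra hc
    exact tok_out _ _ _ (by omega) h
  obtain ⟨z, _, o, j, rfl, h2, h3, h4, _, h6⟩ := tok_loc hp ws i hi
  obtain ⟨g1, g2⟩ := (h6 _ j h2).mp h
  refine ⟨by omega, ?_⟩
  rw [h4.at (o + j) j (by omega) (by omega) (by omega),
    h4.at (o + j + p) (j + p) (by omega) (by omega) (by omega), g2]

theorem Sm_tok {y : ℕ → ℕ} {n p t M : ℕ} (hp : 1 ≤ p) (hM : 4 * t * n * p < M)
    (hY : ∀ (l : ℕ) (v : ℤ), 2 * |(t : ℤ) * l - M * v| < M → (y l : ℤ) = v)
    (ws : List (List α)) (hn : ws.length ≤ n)
    (hG : ∀ z ∈ ws, ∀ l, 0 < l → (l = fwd (bt p z) 0 ∨ l = back (bt p z) (z.length - p)) →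
      4 * ((n : ℤ) + 1) * |(t : ℤ) * l - M * y l| ≤ M)
    (x : ℕ) (hx : ¬ bt p ws.flatten x) :
    Sm y (tok (bt p) ws) (x + 1) = Sm y (bt p ws.flatten) (x + 1) := by
  have vis : ∀ {z : List α} {o j : ℕ}, Eqv ws.flatten o z 0 z.length → bt p ws.flatten (o + j) →
      j + p < z.length → bt p z j := by
    intro z o j h4 hb hj
    refine ⟨hj, ?_⟩
    rw [← h4.at (o + j) j (by omega) (by omega) (by omega),
      ← h4.at (o + j + p) (j + p) (by omega) (by omega) (by omega), hb.2]
  refine Sm_compare hM hY (tok_bt_imp hp ws) (fun x => ?_) (fun x => ?_) ?_ x hx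
  · refine le_trans (cnt_imp (D' := tok (fun z j => z.length ≤ j + p) ws) x ?_)
      ((cnt_tok _ p (cnt_tail p) ws x).trans (Nat.mul_le_mul_right _ hn))
    rintro i _ ⟨h1, h2⟩
    obtain ⟨z, _, o, j, rfl, g2, g3, g4, _, g6⟩ := tok_loc hp ws i (by have := h1.1; omega)
    rw [g6 _ j g2] at h2 ⊢
    by_contra hc
    exact h2 (vis g4 h1 (by omega))
  · refine le_trans (cnt_imp (D' := tok (fun z j => j + p = z.length) ws) x ?_)
      ((cnt_tok _ 1 (fun z => cnt_one (z.length - p) _ _ (fun j hj => by omega)) ws x).trans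
        (by omega))
    rintro i _ ⟨h1, h2, h3⟩
    obtain ⟨z, _, o, j, rfl, g2, g3, g4, g5, g6⟩ := tok_loc hp ws i (by have := h1.1; omega)
    rw [g6 _ j g2] at h2 ⊢
    rw [back_congr (g6 _) g5 j g2.le] at h3
    have hj := back_le (bt p z) j
    have := (back_spec (bt p z) j (j - 1) (by omega) (by omega)).1
    by_contra hc
    exact h2 (vis g4 h1 (by omega))
  · intro i h2 h3 h1
    have hi : i < ws.flatten.length := by
      have hj := back_le (tok (bt p) ws) i
      have := (tok_bt_imp hp ws _ (back_spec _ i (i - 1) (by omega) (by omega))).1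
      omega
    obtain ⟨z, hz, o, j, rfl, g2, g3, g4, g5, g6⟩ := tok_loc hp ws i hi
    rw [g6 _ j g2] at h2
    rw [back_congr (g6 _) g5 j g2.le] at h3 h1 ⊢
    have hj := back_le (bt p z) j
    have hv := (back_spec (bt p z) j (j - 1) (by omega) (by omega)).1
    apply hG z hz _ h3
    rcases h1 with h1 | h1
    · right
      have : j + p = z.length := by
        by_contra hc
        exact h2 (vis g4 h1 (by omega))
      rw [show z.length - p = j by omega]
    · left
      have hb : back (bt p z) j = j := by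
        by_contra hc
        have a1 := back_stop (bt p z) j (j - 1 - back (bt p z) j) (by omega)
        have a2 := back_spec (bt p ws.flatten) (o + j) (o + (j - 1 - back (bt p z) j)) (by omega)
          (by omega)
        exact a1 (vis g4 a2 (by omega))
      rw [hb]
      symm
      apply fwd_eq (by simpa using h2)
      intro j' hj'
      rw [Nat.zero_add]
      exact back_spec _ j j' hj' (by omega)

/-- simultaneous approximation -/
theorem dirichlet {κ : Type} [Fintype κ] (l : κ → ℕ) (Q M : ℕ) (hQ : 0 < Q) (hM : 0 < M) :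
    ∃ t, 1 ≤ t ∧ t ≤ Q ^ Fintype.card κ ∧ ∀ i, ∃ v : ℤ, Q * |(t : ℤ) * l i - M * v| < M := by
  let f : Fin (Q ^ Fintype.card κ + 1) → (κ → Fin Q) := fun s i =>
    ⟨(s * l i % M) * Q / M, by
      rw [Nat.div_lt_iff_lt_mul hM, mul_comm Q M]
      exact Nat.mul_lt_mul_of_pos_right (Nat.mod_lt _ hM) hQ⟩
  have key : ∀ s s' : Fin (Q ^ Fintype.card κ + 1), s < s' → f s = f s' →
      ∃ t, 1 ≤ t ∧ t ≤ Q ^ Fintype.card κ ∧ ∀ i, ∃ v : ℤ, Q * |(t : ℤ) * l i - M * v| < M := by
    intro s s' hlt hf
    have h1 : (s : ℕ) < s' := hlt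
    refine ⟨s' - s, by omega, by have := s'.2; omega, fun i => ?_⟩
    refine ⟨((s' * l i / M : ℕ) : ℤ) - ((s * l i / M : ℕ) : ℤ), ?_⟩
    have h2 : (s * l i % M) * Q / M = (s' * l i % M) * Q / M := congrArg Fin.val (congrFun hf i)
    have e1 := Nat.div_add_mod (s * l i) M
    have e2 := Nat.div_add_mod (s' * l i) M
    have e3 := Nat.div_add_mod ((s * l i % M) * Q) M
    have e4 := Nat.div_add_mod ((s' * l i % M) * Q) M
    have e5 := Nat.mod_lt ((s * l i % M) * Q) hM
    have e6 := Nat.mod_lt ((s' * l i % M) * Q) hM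
    rw [h2] at e3
    have e7 : (((s' - s : ℕ) : ℕ) : ℤ) * l i - M * (((s' * l i / M : ℕ) : ℤ) - ((s * l i / M : ℕ) : ℤ))
        = ((s' * l i % M : ℕ) : ℤ) - ((s * l i % M : ℕ) : ℤ) := by
      rw [Nat.cast_sub h1.le]
      have e1' : (M : ℤ) * ((s * l i / M : ℕ) : ℤ) + ((s * l i % M : ℕ) : ℤ) = (s : ℕ) * l i := by
        exact_mod_cast e1
      have e2' : (M : ℤ) * ((s' * l i / M : ℕ) : ℤ) + ((s' * l i % M : ℕ) : ℤ) = (s' : ℕ) * l i := by
        exact_mod_cast e2
      linarith
    rw [e7, ← Nat.abs_cast Q, ← abs_mul, abs_lt]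
    generalize (s * l i % M) = a at *
    generalize (s' * l i % M) = a' at *
    have e8 : (Q : ℤ) * ((a' : ℤ) - a) = ((a' * Q : ℕ) : ℤ) - ((a * Q : ℕ) : ℤ) := by
      push_cast; ring
    rw [e8]
    constructor <;> omega
  obtain ⟨s, s', hne, hf⟩ := Fintype.exists_ne_map_eq_of_card_lt f (by simp)
  rcases lt_or_gt_of_ne hne with h | h
  · exact key s s' h hf
  · exact key s' s h hf.symm

/-- rounding `t * l / M` to the nearest integer -/
def rnd (t M l : ℕ) : ℕ := (2 * t * l + M) / (2 * M)

theorem rnd_eq {t M : ℕ} (l : ℕ) (v : ℤ) (h : 2 * |(t : ℤ) * l - M * v| < M) :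
    (rnd t M l : ℤ) = v := by
  have hM : 0 < M := by
    have := abs_nonneg ((t : ℤ) * l - M * v)
    omega
  have h1 : |(t : ℤ) * l - M * v| < M := by
    have := abs_nonneg ((t : ℤ) * l - M * v)
    omega
  have h2 := le_abs_self ((t : ℤ) * l - M * v)
  have h3 := neg_abs_le ((t : ℤ) * l - M * v)
  unfold rnd
  push_cast
  rw [Int.ediv_eq_iff_of_pos (by omega)]
  constructor <;> nlinarith

theorem rnd_le {t D p : ℕ} (hp : 1 ≤ p) (hD : 2 * t ≤ D) (ht : 1 ≤ t) (l : ℕ) :
    rnd t (D * p) l * p ≤ l := by
  have hM : 0 < D * p := Nat.mul_pos (by omega) hp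
  by_cases h : 2 * t * l < D * p
  · have : rnd t (D * p) l = 0 := by
      unfold rnd
      exact Nat.div_eq_of_lt (by omega)
    rw [this]; omega
  · have h1 : rnd t (D * p) l * (2 * (D * p)) ≤ 2 * t * l + D * p := Nat.div_mul_le_self _ _
    have h2 : 2 * t * l ≤ D * l := Nat.mul_le_mul_right _ hD
    have h3 : D * (rnd t (D * p) l * p) ≤ D * l := by nlinarith
    exact Nat.le_of_mul_le_mul_left h3 (by omega)

theorem rnd_pos {t M l : ℕ} (hM : 0 < M) (ht : 1 ≤ t) (h : M ≤ l) : 1 ≤ rnd t M l := by
  unfold rnd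
  rw [Nat.le_div_iff_mul_le (by omega)]
  nlinarith

variable {ι : Type}

/-- value of a letter or variable -/
def val (h : ι → List α) : α ⊕ ι → List α := Sum.elim (fun a => [a]) h

/-- value of one side of an equation -/
def ev (h : ι → List α) (U : List (α ⊕ ι)) : List α := U.flatMap (val h)

/-- a solution of least total length -/
def MinSol [Fintype ι] (U V : List (α ⊕ ι)) (h : ι → List α) : Prop :=
  ev h U = ev h V ∧ ∀ g : ι → List α, ev g U = ev g V → ∑ x, (h x).length ≤ ∑ x, (g x).length

theorem exp_bound [Fintype ι] {U V : List (α ⊕ ι)} {h : ι → List α} (hm : MinSol U V h) {n : ℕ}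
    (hU : U.length ≤ n) (hV : V.length ≤ n) (x : ι) :
    Ap (4 * (n + 1) * (4 * (n + 1)) ^ (2 * Fintype.card ι) + 1) (h x) := by
  intro p a L hp hlen hE
  by_contra hc
  set S := (4 * (n + 1)) ^ (2 * Fintype.card ι) with hS
  have hS0 : 0 < S := by positivity
  set D := 4 * (n + 1) * S with hD
  have hD0 : 0 < D := by positivity
  have hM0 : 0 < D * p := Nat.mul_pos hD0 hp
  have hL : D * p < L := by
    rw [Nat.add_mul] at hc
    omega
  obtain ⟨t, ht1, ht2, ht3⟩ := dirichlet (κ := ι × Bool)
    (fun i => if i.2 then fwd (bt p (h i.1)) 0 else back (bt p (h i.1)) ((h i.1).length - p))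
    (4 * (n + 1)) (D * p) (by omega) hM0
  rw [Fintype.card_prod, Fintype.card_bool, mul_comm _ 2, ← hS] at ht2
  have hy : ∀ l, rnd t (D * p) l * p ≤ l := rnd_le hp (by nlinarith) ht1
  have hM : 4 * t * n * p < D * p := by
    apply Nat.mul_lt_mul_of_pos_right _ hp
    have : t * n ≤ S * n := Nat.mul_le_mul_right _ ht2
    nlinarith
  have good : ∀ (l : ℕ), (∃ v : ℤ, ((4 * (n + 1) : ℕ) : ℤ) * |(t : ℤ) * l - (D * p : ℕ) * v| <
      (D * p : ℕ)) →
      4 * ((n : ℤ) + 1) * |(t : ℤ) * l - (D * p : ℕ) * (rnd t (D * p) l : ℤ)| ≤ (D * p : ℕ) := by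
    rintro l ⟨v, hv⟩
    have h0 := abs_nonneg ((t : ℤ) * l - (D * p : ℕ) * v)
    have : (rnd t (D * p) l : ℤ) = v := by
      apply rnd_eq
      have : (2 : ℤ) ≤ ((4 * (n + 1) : ℕ) : ℤ) := by omega
      nlinarith
    rw [this]
    have h1 : ((4 * (n + 1) : ℕ) : ℤ) = 4 * ((n : ℤ) + 1) := by push_cast; ring
    rw [← h1]
    exact hv.le
  let g : ι → List α := fun x => del (h x) (Del (rnd t (D * p)) p (bt p (h x)))
  have hbt : ∀ (z : List α) i, ∃ j, ¬ bt p z (i + j) :=
    fun z i => ⟨z.length, bt_end hp z _ (by omega)⟩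
  have side : ∀ T : List (α ⊕ ι), T.length ≤ n →
      ev g T = del (ev h T) (Del (rnd t (D * p)) p (tok (bt p) (T.map (val h)))) ∧
      ∀ x, ¬ bt p (ev h T) x → cnt (Del (rnd t (D * p)) p (tok (bt p) (T.map (val h)))) x =
        p * Sm (rnd t (D * p)) (bt p (ev h T)) (x + 1) := by
    intro T hT
    have e1 : ev h T = (T.map (val h)).flatten := by simp [ev, List.flatMap]
    constructor
    · rw [e1, del_flatten hp, List.map_map]
      unfold ev List.flatMap
      congr 1
      apply List.map_congr_left
      rintro (c | z) _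
      · have : ¬ Del (rnd t (D * p)) p (bt p [c]) 0 := fun hd => bt_end hp [c] 0 (by simp) hd.1
        simp [val, del, this]
      · rfl
    · intro x hx
      rw [e1] at hx ⊢
      rw [cnt_Del_zero hy (fun i => ⟨_, tok_out _ _ _ (Nat.le_add_left _ _)⟩) x
        (fun hc => hx (tok_bt_imp hp _ _ hc)),
        Sm_tok hp hM (fun l v => rnd_eq l v) _ (by simpa using hT) ?_ x hx]
      intro z hz l hl0 hl
      obtain ⟨c | w, _, rfl⟩ := List.mem_map.mp hz
      · exfalso
        have a1 : fwd (bt p (val h (Sum.inl c : α ⊕ ι))) 0 = 0 :=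
          fwd_eq (bt_end hp _ _ (by simp [val])) (by omega)
        have a2 : (val h (Sum.inl c : α ⊕ ι)).length - p = 0 := by simp [val]; omega
        rw [a1, a2] at hl
        simp [back] at hl
        omega
      · apply good
        rcases hl with hl | hl
        · rw [hl]; exact ht3 (w, true)
        · rw [hl]; exact ht3 (w, false)
  obtain ⟨u1, u2⟩ := side U hU
  obtain ⟨v1, v2⟩ := side V hV
  have tokimp : ∀ T : List (α ⊕ ι), ∀ i, tok (bt p) (T.map (val h)) i → bt p (ev h T) i := by
    intro T i hi
    have e1 : ev h T = (T.map (val h)).flatten := by simp [ev, List.flatMap]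
    rw [e1]
    exact tok_bt_imp hp _ _ hi
  have sol : ev g U = ev g V := by
    rw [u1, v1, ← hm.1]
    rw [← hm.1] at v2
    have tv := tokimp V
    rw [← hm.1] at tv
    exact del_eq (p := p) (b := bt p (ev h U)) (fun i hi => hi.2) (bt_end hp _ _ (by omega))
      (fun i hi => tokimp U i hi.1) (fun i hi => tv i hi.1)
      (fun i hi => by rw [u2 i hi, v2 i hi])
      (dvd_cnt_Del hy (fun i => ⟨_, tok_out _ _ _ (Nat.le_add_left _ _)⟩))
      (dvd_cnt_Del hy (fun i => ⟨_, tok_out _ _ _ (Nat.le_add_left _ _)⟩))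
  have hle := hm.2 g sol
  have hlt : ∑ x, (g x).length < ∑ x, (h x).length := by
    apply Finset.sum_lt_sum
    · intro i _
      have := del_length (h i) (Del (rnd t (D * p)) p (bt p (h i)))
      simp only [g]
      omega
    · refine ⟨x, Finset.mem_univ _, ?_⟩
      have a1 := del_length (h x) (Del (rnd t (D * p)) p (bt p (h x)))
      have a2 := cnt_Del hy (hbt (h x)) (a + L)
      have a3 : L ≤ back (bt p (h x)) (a + L) := by
        apply back_ge
        intro j hj
        refine ⟨by omega, ?_⟩
        rw [hE j hj]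
        congr 1
        omega
      have a4 := rnd_pos hM0 ht1 (l := back (bt p (h x)) (a + L) + fwd (bt p (h x)) (a + L))
        (by omega)
      have a5 := Nat.mul_le_mul a4 hp
      have a6 := cnt_mono (Del (rnd t (D * p)) p (bt p (h x))) (show a + L ≤ (h x).length by omega)
      simp only [g]
      omega
  omega

end Pool.Agent.Lib.MP_493d38_lc.KV
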