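import Mathlib
import Pool.Agent.Lib.MP_493d38_lc.KV.Exp

namespace Pool.Agent.Lib.MP_493d38_lc.KV

open Classical

variable {α : Type}

/-- the next cut after `a`, or `b` -/
noncomputable def nxt (c : ℕ → Prop) (a b : ℕ) : ℕ := sInf {v | a < v ∧ (b ≤ v ∨ c v)}

theorem nxt_spec (c : ℕ → Prop) {a b : ℕ} (h : a < b) :
    a < nxt c a b ∧ nxt c a b ≤ b ∧ (nxt c a b = b ∨ c (nxt c a b)) ∧
      ∀ i, a < i → i < nxt c a b → ¬ c i := by
  have h1 : nxt c a b ∈ {v | a < v ∧ (b ≤ v ∨ c v)} := Nat.sInf_mem ⟨b, h, Or.inl le_rfl⟩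
  have h2 : nxt c a b ≤ b := Nat.sInf_le ⟨h, Or.inl le_rfl⟩
  refine ⟨h1.1, h2, h1.2.imp (fun h3 => by omega) id, fun i hi1 hi2 hc => ?_⟩
  have : nxt c a b ≤ i := Nat.sInf_le ⟨hi1, Or.inr hc⟩
  omega

theorem nxt_eq {c : ℕ → Prop} {a b v : ℕ} (h1 : a < v) (h2 : v ≤ b) (h3 : v = b ∨ c v)
    (h4 : ∀ i, a < i → i < v → ¬ c i) : nxt c a b = v := by
  obtain ⟨g1, g2, g3, g4⟩ := nxt_spec c (show a < b by omega)
  rcases lt_trichotomy (nxt c a b) v with h | h | h
  · rcases g3 with g3 | g3
    · omega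
    · exact absurd g3 (h4 _ g1 h)
  · exact h
  · rcases h3 with h3 | h3
    · omega
    · exact absurd h3 (g4 _ h1 h)

/-- the intervals between consecutive cuts, from `a` to `b` -/
noncomputable def P (c : ℕ → Prop) (a b : ℕ) : List (ℕ × ℕ) :=
  if h : a < b then (a, nxt c a b) :: P c (nxt c a b) b else []
termination_by b - a
decreasing_by
  have := nxt_spec c h
  omega

theorem P_nil (c : ℕ → Prop) {a b : ℕ} (h : b ≤ a) : P c a b = [] := by
  rw [P, dif_neg (by omega)]

theorem P_cons (c : ℕ → Prop) {a b : ℕ} (h : a < b) :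
    P c a b = (a, nxt c a b) :: P c (nxt c a b) b := by
  rw [P, dif_pos h]

theorem P_ind {c : ℕ → Prop} {b : ℕ} (Q : ℕ → Prop) (h0 : ∀ a, b ≤ a → Q a)
    (h1 : ∀ a, a < b → Q (nxt c a b) → Q a) (a : ℕ) : Q a := by
  induction hk : b - a using Nat.strong_induction_on generalizing a with
  | _ k ih =>
    by_cases h : a < b
    · have := nxt_spec c h
      exact h1 a h (ih (b - nxt c a b) (by omega) _ rfl)
    · exact h0 a (by omega)

theorem P_append {c : ℕ → Prop} {a m b : ℕ} (h1 : a ≤ m) (h2 : m ≤ b) (hc : c m) :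
    P c a b = P c a m ++ P c m b := by
  revert h1
  refine P_ind (c := c) (b := m) (fun a => a ≤ m → P c a b = P c a m ++ P c m b) ?_ ?_ a
  · intro a h h'
    rw [P_nil c h, show a = m by omega]
    rfl
  · intro a h ih _
    obtain ⟨g1, g2, g3, g4⟩ := nxt_spec c h
    have : nxt c a b = nxt c a m :=
      nxt_eq g1 (by omega) (Or.inr (g3.elim (fun h => h.symm ▸ hc) id)) g4
    rw [P_cons c h, P_cons c (show a < b by omega), this, ih g2]
    rfl

theorem P_shift {c c' : ℕ → Prop} {a b d : ℕ} (h : ∀ i, a < i → i < b → (c' (d + i) ↔ c i)) :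
    P c' (d + a) (d + b) = (P c a b).map (fun q => (d + q.1, d + q.2)) := by
  revert h
  refine P_ind (c := c) (b := b) (fun a => (∀ i, a < i → i < b → (c' (d + i) ↔ c i)) →
    P c' (d + a) (d + b) = (P c a b).map (fun q => (d + q.1, d + q.2))) ?_ ?_ a
  · intro a h _
    rw [P_nil c h, P_nil c' (by omega)]
    rfl
  · intro a h ih hc
    obtain ⟨g1, g2, g3, g4⟩ := nxt_spec c h
    have : nxt c' (d + a) (d + b) = d + nxt c a b := by
      apply nxt_eq (by omega) (by omega)
      · by_cases hb : nxt c a b = b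
        · left; omega
        · right
          exact (hc _ g1 (by omega)).mpr (g3.resolve_left hb)
      · intro i hi1 hi2 hi
        rw [show i = d + (i - d) by omega, hc _ (by omega) (by omega)] at hi
        exact g4 _ (by omega) (by omega) hi
    rw [P_cons c h, P_cons c' (show d + a < d + b by omega), this,
      ih (fun i hi1 hi2 => hc i (by omega) hi2)]
    rfl

theorem P_mem {c : ℕ → Prop} {a b : ℕ} {q : ℕ × ℕ} (h : q ∈ P c a b) :
    a ≤ q.1 ∧ q.1 < q.2 ∧ q.2 ≤ b ∧ (q.1 = a ∨ c q.1) ∧ (q.2 = b ∨ c q.2) ∧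
      ∀ i, q.1 < i → i < q.2 → ¬ c i := by
  revert h
  refine P_ind (c := c) (b := b) (fun a => q ∈ P c a b → a ≤ q.1 ∧ q.1 < q.2 ∧ q.2 ≤ b ∧
    (q.1 = a ∨ c q.1) ∧ (q.2 = b ∨ c q.2) ∧ ∀ i, q.1 < i → i < q.2 → ¬ c i) ?_ ?_ a
  · intro a h h'
    rw [P_nil c h] at h'
    simp at h'
  · intro a h ih h'
    obtain ⟨g1, g2, g3, g4⟩ := nxt_spec c h
    rw [P_cons c h, List.mem_cons] at h'
    rcases h' with rfl | h'
    · exact ⟨le_rfl, g1, g2, Or.inl rfl, g3, g4⟩
    · obtain ⟨k1, k2, k3, k4, k5, k6⟩ := ih h'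
      refine ⟨by omega, k2, k3, Or.inr (k4.elim (fun k => ?_) id), k5, k6⟩
      rw [k]
      exact g3.resolve_left (by omega)

theorem P_single {c : ℕ → Prop} {a b : ℕ} (h : a < b) (hc : ∀ i, a < i → i < b → ¬ c i) :
    P c a b = [(a, b)] := by
  rw [P_cons c h, nxt_eq h le_rfl (Or.inl rfl) hc, P_nil c le_rfl]

theorem mem_P {c : ℕ → Prop} {a b u v : ℕ} (h1 : a ≤ u) (h2 : u < v) (h3 : v ≤ b) (hu : c u)
    (hv : c v) (h : ∀ i, u < i → i < v → ¬ c i) : (u, v) ∈ P c a b := by
  rw [P_append h1 (by omega) hu, P_append (a := u) h2.le h3 hv, P_single h2 h]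
  simp

theorem P_flatten (z : List α) (c : ℕ → Prop) {a b : ℕ} (h : a ≤ b) :
    ((P c a b).map (fun q => sl z q.1 q.2)).flatten = sl z a b := by
  revert h
  refine P_ind (c := c) (b := b)
    (fun a => a ≤ b → ((P c a b).map (fun q => sl z q.1 q.2)).flatten = sl z a b) ?_ ?_ a
  · intro a h h'
    rw [P_nil c h, show a = b by omega, sl_self]
    rfl
  · intro a h ih _
    obtain ⟨g1, g2, _, _⟩ := nxt_spec c h
    rw [P_cons c h, List.map_cons, List.flatten_cons, ih g2, sl_append z g1.le g2]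

theorem P_sum (c : ℕ → Prop) (a b : ℕ) : ((P c a b).map (fun q => q.2 - q.1)).sum = b - a := by
  refine P_ind (c := c) (b := b)
    (fun a => ((P c a b).map (fun q => q.2 - q.1)).sum = b - a) ?_ ?_ a
  · intro a h
    rw [P_nil c h]
    simp; omega
  · intro a h ih
    obtain ⟨g1, g2, _, _⟩ := nxt_spec c h
    rw [P_cons c h, List.map_cons, List.sum_cons, ih]
    simp; omega

theorem P_length (c : ℕ → Prop) (a b : ℕ) :
    (P c a b).length ≤ ((Finset.Ioo a b).filter c).card + 1 := by
  refine P_ind (c := c) (b := b)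
    (fun a => (P c a b).length ≤ ((Finset.Ioo a b).filter c).card + 1) ?_ ?_ a
  · intro a h
    rw [P_nil c h]
    simp
  · intro a h ih
    obtain ⟨g1, g2, g3, _⟩ := nxt_spec c h
    rw [P_cons c h, List.length_cons]
    by_cases hb : nxt c a b = b
    · rw [hb, P_nil c le_rfl]
      simp
    · have : ((Finset.Ioo (nxt c a b) b).filter c).card < ((Finset.Ioo a b).filter c).card := by
        apply Finset.card_lt_card
        rw [Finset.ssubset_iff_of_subset]
        · refine ⟨nxt c a b, ?_, by simp⟩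
          simp only [Finset.mem_filter, Finset.mem_Ioo]
          exact ⟨⟨g1, by omega⟩, g3.resolve_left hb⟩
        · intro i hi
          simp only [Finset.mem_filter, Finset.mem_Ioo] at hi ⊢
          exact ⟨⟨by omega, hi.1.2⟩, hi.2⟩
      omega

theorem P_pos (c : ℕ → Prop) {a b : ℕ} (h : a < b) : 0 < (P c a b).length := by
  rw [P_cons c h]
  simp

theorem P_idx {c : ℕ → Prop} {a b : ℕ} (i : ℕ) (q : ℕ × ℕ) (h : (P c a b)[i]? = some q) :
    q.2 = b ↔ i + 1 = (P c a b).length := by
  revert i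
  refine P_ind (c := c) (b := b) (fun a => ∀ i, (P c a b)[i]? = some q →
    (q.2 = b ↔ i + 1 = (P c a b).length)) ?_ ?_ a
  · intro a h i h'
    rw [P_nil c h] at h'
    simp at h'
  · intro a h ih i h'
    obtain ⟨g1, g2, _, _⟩ := nxt_spec c h
    rw [P_cons c h] at h' ⊢
    rcases i with _ | i
    · simp only [List.getElem?_cons_zero, Option.some.injEq] at h'
      subst h'
      simp only [List.length_cons]
      constructor
      · intro hb
        rw [hb, P_nil c le_rfl]
        rfl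
      · intro hl
        by_contra hb
        have := P_pos c (show nxt c a b < b by omega)
        omega
    · rw [List.getElem?_cons_succ] at h'
      rw [ih i h', List.length_cons]
      omega

/-- image of the pieces between `a` and `b` -/
noncomputable def img (ψ : ℕ × ℕ → List α) (c : ℕ → Prop) (a b : ℕ) : List α :=
  ((P c a b).map ψ).flatten

theorem img_append (ψ : ℕ × ℕ → List α) {c : ℕ → Prop} {a m b : ℕ} (h1 : a ≤ m) (h2 : m ≤ b)
    (hc : c m) : img ψ c a b = img ψ c a m ++ img ψ c m b := by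
  unfold img
  rw [P_append h1 h2 hc, List.map_append, List.flatten_append]

theorem img_shift {ψ ψ' : ℕ × ℕ → List α} {c c' : ℕ → Prop} {a b d : ℕ}
    (h : ∀ i, a < i → i < b → (c' (d + i) ↔ c i))
    (hψ : ∀ q ∈ P c a b, ψ' (d + q.1, d + q.2) = ψ q) :
    img ψ' c' (d + a) (d + b) = img ψ c a b := by
  unfold img
  rw [P_shift h, List.map_map]
  congr 1
  exact List.map_congr_left hψ

variable {ι : Type}

/-- value of a side written as short words alternating with long variables -/
def evP (h : ι → List α) : List (List α × ι) → List α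
  | [] => []
  | q :: L => q.1 ++ h q.2 ++ evP h L

/-- the contexts (long variable, short word, long variable) of a side -/
def ctxs : ι → List (List α × ι) → List (ι × List α × ι)
  | _, [] => []
  | X, q :: L => (X, q.1, q.2) :: ctxs q.2 L

/-- the last variable of a side -/
def lastV : ι → List (List α × ι) → ι
  | X, [] => X
  | _, q :: L => lastV q.2 L

/-- a side, followed by the long variable `X0`, as short words alternating with long variables -/
noncomputable def pairs (Lg : ι → Prop) (h : ι → List α) (X0 : ι) :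
    List (α ⊕ ι) → List α → List (List α × ι)
  | [], acc => [(acc, X0)]
  | Sum.inl a :: U, acc => pairs Lg h X0 U (acc ++ [a])
  | Sum.inr x :: U, acc =>
    if Lg x then (acc, x) :: pairs Lg h X0 U [] else pairs Lg h X0 U (acc ++ h x)

theorem evP_pairs (Lg : ι → Prop) (h g : ι → List α) (X0 : ι) (hg : ∀ x, ¬ Lg x → g x = h x)
    (U : List (α ⊕ ι)) (acc : List α) :
    evP g (pairs Lg h X0 U acc) = acc ++ ev g U ++ g X0 := by
  induction U generalizing acc with
  | nil => simp [pairs, evP, ev]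
  | cons t U ih =>
    rcases t with a | x
    · simp [pairs, ih, ev, val]
    · by_cases hx : Lg x
      · simp [pairs, hx, evP, ih, ev, val]
      · simp [pairs, hx, ih, ev, val, hg x hx]

theorem lastV_pairs (Lg : ι → Prop) (h : ι → List α) (X0 X : ι) (U : List (α ⊕ ι))
    (acc : List α) : lastV X (pairs Lg h X0 U acc) = X0 := by
  induction U generalizing acc X with
  | nil => simp [pairs, lastV]
  | cons t U ih =>
    rcases t with a | x
    · simp [pairs, ih]
    · by_cases hx : Lg x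
      · simp [pairs, hx, lastV, ih]
      · simp [pairs, hx, ih]

theorem ctxs_pairs {Lg : ι → Prop} {h : ι → List α} {X0 : ι} {m : ℕ} (hm : 1 ≤ m) (h0 : Lg X0)
    (hs : ∀ x, ¬ Lg x → (h x).length ≤ m) (U : List (α ⊕ ι)) (acc : List α) (X : ι) (hX : Lg X) :
    ∀ c ∈ ctxs X (pairs Lg h X0 U acc), Lg c.1 ∧ Lg c.2.2 ∧
      c.2.1.length ≤ acc.length + U.length * m := by
  induction U generalizing acc X with
  | nil =>
    intro c hc
    simp only [pairs, ctxs, List.mem_singleton] at hc
    subst hc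
    exact ⟨hX, h0, by simp⟩
  | cons t U ih =>
    intro c hc
    rw [List.length_cons, Nat.add_mul]
    rcases t with a | x
    · obtain ⟨h1, h2, h3⟩ := ih (acc ++ [a]) X hX c hc
      simp only [List.length_append, List.length_singleton] at h3
      exact ⟨h1, h2, by omega⟩
    · by_cases hx : Lg x
      · simp only [pairs, hx, if_true, ctxs, List.mem_cons] at hc
        rcases hc with rfl | hc
        · exact ⟨hX, hx, by simp⟩
        · obtain ⟨h1, h2, h3⟩ := ih [] x hx c hc
          simp only [List.length_nil] at h3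
          exact ⟨h1, h2, by omega⟩
      · simp only [pairs, hx, if_false] at hc
        obtain ⟨h1, h2, h3⟩ := ih (acc ++ h x) X hX c hc
        have := hs x hx
        simp only [List.length_append] at h3
        exact ⟨h1, h2, by omega⟩

/-- data for rewriting a solution piece by piece -/
structure Rew (H : ι → List α) (Lg : ι → Prop) (Cx : Finset (ι × List α × ι)) where
  cut : List α → ℕ → Prop
  ψ : List α → ℕ × ℕ → List α
  i0 : ι → ℕ
  i1 : ι → ℕ
  hd : ι → List α
  co : ι → List α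
  tl : ι → List α
  le : ∀ X, Lg X → i0 X ≤ i1 X ∧ i1 X ≤ (H X).length
  cuts : ∀ X, Lg X → ∀ l r : List α, cut (l ++ H X ++ r) (l.length + i0 X) ∧
    cut (l ++ H X ++ r) (l.length + i1 X)
  core : ∀ X, Lg X → ∀ l r : List α, img (ψ (l ++ H X ++ r)) (cut (l ++ H X ++ r))
    (l.length + i0 X) (l.length + i1 X) = co X
  ctx : ∀ c ∈ Cx, ∀ l r : List α, img (ψ (l ++ (H c.1 ++ c.2.1 ++ H c.2.2) ++ r))
    (cut (l ++ (H c.1 ++ c.2.1 ++ H c.2.2) ++ r)) (l.length + i1 c.1)
    (l.length + ((H c.1).length + c.2.1.length + i0 c.2.2)) = tl c.1 ++ c.2.1 ++ hd c.2.2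

theorem Rew.side {H : ι → List α} {Lg : ι → Prop} {Cx : Finset (ι × List α × ι)}
    (R : Rew H Lg Cx) (hC : ∀ c ∈ Cx, Lg c.2.2) (g : ι → List α)
    (hg : ∀ x, Lg x → g x = R.hd x ++ R.co x ++ R.tl x) (L : List (List α × ι)) (X : ι)
    (hX : Lg X) (hL : ∀ c ∈ ctxs X L, c ∈ Cx) (l W : List α) (E : ℕ)
    (hW : W = l ++ H X ++ evP H L)
    (hE : E + (H (lastV X L)).length = W.length + R.i1 (lastV X L)) :
    l.length + R.i1 X ≤ E ∧
      img (R.ψ W) (R.cut W) (l.length + R.i1 X) E ++ R.tl (lastV X L) = R.tl X ++ evP g L := by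
  induction L generalizing X l with
  | nil =>
    simp only [lastV, evP, List.append_nil] at hE hW ⊢
    rw [hW, List.length_append] at hE
    rw [show E = l.length + R.i1 X by omega]
    simp [img, P_nil]
  | cons q L ih =>
    have hc : (X, q.1, q.2) ∈ Cx := hL _ (by simp [ctxs])
    have hY : Lg q.2 := hC _ hc
    have hW' : W = (l ++ H X ++ q.1) ++ H q.2 ++ evP H L := by simp [hW, evP]
    have hW2 : W = l ++ (H X ++ q.1 ++ H q.2) ++ evP H L := by simp [hW, evP]
    obtain ⟨i1, i2⟩ := ih q.2 hY (fun c hc => hL c (by simp [ctxs, hc])) (l ++ H X ++ q.1) hW' hE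
    obtain ⟨c1, c2⟩ := R.cuts q.2 hY (l ++ H X ++ q.1) (evP H L)
    have c3 := R.core q.2 hY (l ++ H X ++ q.1) (evP H L)
    have c4 := R.ctx _ hc l (evP H L)
    rw [← hW'] at c1 c2 c3
    simp only at c4
    rw [← hW2] at c4
    have l1 := R.le X hX
    have l2 := R.le q.2 hY
    have e1 : (l ++ H X ++ q.1).length = l.length + ((H X).length + q.1.length) := by simp
    refine ⟨by omega, ?_⟩
    rw [img_append _ (by omega) i1 c2, img_append _ (m := (l ++ H X ++ q.1).length + R.i0 q.2)
      (by omega) (by omega) c1, c3, e1, Nat.add_assoc, c4]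
    simp only [lastV, evP, List.append_assoc]
    rw [e1] at i2
    rw [← e1] at i2
    rw [← e1, i2, hg _ hY]
    simp

/-- the situation when every variable is either short or very long -/
structure Setup (α ι : Type) (e n Λ : ℕ) where
  H : ι → List α
  Lg : ι → Prop
  Cx : Finset (ι × List α × ι)
  ap : ∀ x, Ap e (H x)
  long : ∀ x, Lg x → Λ ≤ (H x).length
  ex : ∃ x, Lg x
  cx : ∀ c ∈ Cx, Lg c.1 ∧ Lg c.2.2 ∧ c.2.1.length ≤ n
  min : ∀ R : Rew H Lg Cx,
    (∀ X, Lg X → (R.hd X ++ R.co X ++ R.tl X).length ≤ (H X).length) →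
    ∀ X, Lg X → (H X).length ≤ (R.hd X ++ R.co X ++ R.tl X).length

theorem setup_of_min [Fintype ι] {U V : List (α ⊕ ι)} {h : ι → List α} (hm : MinSol U V h)
    {e n m Λ : ℕ} (hap : ∀ x, Ap e (h x)) (hU : U.length ≤ n) (hV : V.length ≤ n) (h1 : 1 ≤ m)
    (gap : ∀ x, (h x).length ≤ m ∨ Λ ≤ (h x).length) (X0 : ι) (h0 : m < (h X0).length) :
    Nonempty (Setup α ι e (n * m) Λ) := by
  let Lg : ι → Prop := fun x => m < (h x).length
  have hs : ∀ x, ¬ Lg x → (h x).length ≤ m := fun x hx => by simpa [Lg] using hx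
  let Cx := (ctxs X0 (pairs Lg h X0 U []) ++ ctxs X0 (pairs Lg h X0 V [])).toFinset
  have hcx : ∀ c ∈ Cx, Lg c.1 ∧ Lg c.2.2 ∧ c.2.1.length ≤ n * m := by
    intro c hc
    rw [List.mem_toFinset, List.mem_append] at hc
    rcases hc with hc | hc
    · obtain ⟨a1, a2, a3⟩ := ctxs_pairs (Lg := Lg) h1 h0 hs U [] X0 h0 c hc
      have := Nat.mul_le_mul_right m hU
      exact ⟨a1, a2, by simp at a3; omega⟩
    · obtain ⟨a1, a2, a3⟩ := ctxs_pairs (Lg := Lg) h1 h0 hs V [] X0 h0 c hc
      have := Nat.mul_le_mul_right m hV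
      exact ⟨a1, a2, by simp at a3; omega⟩
  refine ⟨⟨h, Lg, Cx, hap, fun x hx => (gap x).resolve_left (by simp only [Lg] at hx; omega),
    ⟨X0, h0⟩, hcx, ?_⟩⟩
  intro R hle X hX
  let g : ι → List α := fun x => if Lg x then R.hd x ++ R.co x ++ R.tl x else h x
  have g1 : ∀ x, Lg x → g x = R.hd x ++ R.co x ++ R.tl x := fun x hx => if_pos hx
  have g2 : ∀ x, ¬ Lg x → g x = h x := fun x hx => if_neg hx
  have l0 := R.le X0 h0
  have side : ∀ T : List (α ⊕ ι), ev h T = ev h U →
      (∀ c ∈ ctxs X0 (pairs Lg h X0 T []), c ∈ Cx) →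
      img (R.ψ (h X0 ++ ev h U ++ h X0)) (R.cut (h X0 ++ ev h U ++ h X0)) (R.i1 X0)
        ((h X0).length + (ev h U).length + R.i1 X0) ++ R.tl X0 = R.tl X0 ++ (ev g T ++ g X0) := by
    intro T hT hc
    have := (R.side (fun c hc => (hcx c hc).2.1) g g1 (pairs Lg h X0 T []) X0 h0 hc []
      (h X0 ++ ev h U ++ h X0) ((h X0).length + (ev h U).length + R.i1 X0)
      (by rw [evP_pairs Lg h h X0 (fun _ _ => rfl), hT]; simp)
      (by rw [lastV_pairs]; simp; omega)).2
    rw [lastV_pairs, evP_pairs Lg h g X0 g2] at this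
    simpa using this
  have s1 := side U rfl (fun c hc => by simp [Cx, hc])
  have s2 := side V hm.1.symm (fun c hc => by simp [Cx, hc])
  have sol : ev g U = ev g V := by
    rw [s1] at s2
    exact List.append_cancel_right (List.append_cancel_left s2)
  have := hm.2 g sol
  by_contra hlt
  have hlt' : ∑ x, (g x).length < ∑ x, (h x).length := by
    apply Finset.sum_lt_sum
    · intro i _
      by_cases hi : Lg i
      · rw [g1 i hi]; exact hle i hi
      · rw [g2 i hi]
    · exact ⟨X, Finset.mem_univ _, by rw [g1 X hX]; omega⟩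
  omega

end Pool.Agent.Lib.MP_493d38_lc.KV
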