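import Mathlib
import Pool.Agent.Lib.MP_493d38_lc.KV.Split

namespace Pool.Agent.Lib.MP_493d38_lc.KV

open Classical

variable {α ι : Type}

theorem exists_core {e ρ s : ℕ} {z : List α} (hz : Ap e z) (hlen : s + e * ρ + 4 * ρ ≤ z.length) :
    ∃ c, s ≤ c ∧ c ≤ s + e * ρ ∧ ∀ p, 1 ≤ p → p ≤ ρ → ¬ Eqv z c z (c + p) (4 * ρ - p) := by
  by_cases h : ∀ p, 1 ≤ p → p ≤ ρ → ¬ Eqv z s z (s + p) (4 * ρ - p)
  · exact ⟨s, le_rfl, by omega, h⟩
  push Not at h
  obtain ⟨p, hp1, hp2, hE⟩ := h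
  have hep : e * p ≤ e * ρ := Nat.mul_le_mul_left _ hp2
  have ex : ∃ L, ¬ Eqv z s z (s + p) L := by
    refine ⟨e * ρ + 1, fun hc => ?_⟩
    have := hz p s (e * ρ + 1) hp1 (by omega) hc
    omega
  have h1 := Nat.find_spec ex
  have h2 : 4 * ρ - p < Nat.find ex := by
    by_contra hc
    exact h1 (hE.sub _ _ _ le_rfl (by omega) (by omega))
  have h3 : Eqv z s z (s + p) (Nat.find ex - 1) := by
    by_contra hc
    have := Nat.find_min' ex hc
    omega
  have h5 : Nat.find ex ≤ e * ρ + 1 := Nat.find_min' ex (fun hc => by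
    have := hz p s (e * ρ + 1) hp1 (by omega) hc
    omega)
  have h4 := hz p s (Nat.find ex - 1) hp1 (by omega) h3
  generalize Nat.find ex = L at *
  refine ⟨s + L + p - 4 * ρ, by omega, by omega, fun p' hp1' hp2' hE' => h1 ?_⟩
  intro i hi
  by_cases hi' : i < L - 1
  · exact h3 i hi'
  · rw [← hE'.at (s + i - p') (s + i) (by omega) (by omega) (by omega),
      h3.at (s + i - p') (s + p + i - p') (by omega) (by omega) (by omega),
      hE'.at (s + p + i - p') (s + p + i) (by omega) (by omega) (by omega)]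

theorem exists_marker {κ : Type} [Fintype κ] {e ρ r k s : ℕ} {z : List α} (hz : Ap e z)
    (hk : Fintype.card κ ≤ 2 * k) (ok : κ → Prop) (w : κ → List α) (g : κ → ℕ)
    (hw : ∀ f, Ap e (w f))
    (hg : ∀ f, ok f → g f + (4 * ρ + 2 * k * (2 * r + 1) - 2 * r) ≤ (w f).length)
    (hρ : (e + 1) * (2 * k * (2 * r + 1) + 2 * r) < ρ) (hs : 2 * k * (2 * r + 1) ≤ s)
    (hlen : s + e * ρ + 4 * ρ + 2 * k * (2 * r + 1) ≤ z.length) :
    ∃ j, s ≤ j + 2 * k * (2 * r + 1) ∧ j ≤ s + e * ρ ∧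
      (∀ p, 1 ≤ p → p ≤ ρ → ¬ Eqv z j z (j + p) (4 * ρ + 2 * k * (2 * r + 1) - p)) ∧
      ∀ f, ok f → ∀ δ, δ ≤ 2 * r →
        ¬ Eqv z (j + δ) (w f) (g f) (4 * ρ + 2 * k * (2 * r + 1) - 2 * r) := by
  obtain ⟨c, hc1, hc2, hc3⟩ := exists_core (s := s) (ρ := ρ) hz (by omega)
  set J := 2 * k * (2 * r + 1) with hJ
  have hb : ∀ i : Fin (2 * k + 1), (i : ℕ) * (2 * r + 1) ≤ J :=
    fun i => Nat.mul_le_mul_right _ (by have := i.2; omega)
  have key : ∃ i : Fin (2 * k + 1), ∀ f, ok f → ∀ δ, δ ≤ 2 * r →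
      ¬ Eqv z (c - J + i * (2 * r + 1) + δ) (w f) (g f) (4 * ρ + J - 2 * r) := by
    by_contra hc
    push Not at hc
    choose f hf δ hδ hE using hc
    have two : ∀ i i' : Fin (2 * k + 1), i < i' → f i = f i' → False := by
      intro i i' hlt hff
      have h1 : ((i : ℕ) + 1) * (2 * r + 1) ≤ i' * (2 * r + 1) := Nat.mul_le_mul_right _ hlt
      rw [Nat.add_mul] at h1
      have h2 := hE i'
      rw [← hff] at h2
      have h4 : (e + 1) * (J + 2 * r) = e * (J + 2 * r) + (J + 2 * r) := by ring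
      have := gap_of_occ (s := J + 2 * r) (hw (f i)) (hg _ (hf i)) (hE i) h2
        (by have := hδ i; omega) (by omega) (by omega)
      have := hb i'
      have := hδ i'
      omega
    obtain ⟨i, i', hne, hff⟩ := Fintype.exists_ne_map_eq_of_card_lt f (by simp; omega)
    rcases lt_or_gt_of_ne hne with h | h
    · exact two i i' h hff
    · exact two i' i h hff.symm
  obtain ⟨i, hi⟩ := key
  have := hb i
  refine ⟨c - J + i * (2 * r + 1), by omega, by omega, fun p hp1 hp2 hE => ?_, hi⟩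
  exact hc3 p hp1 hp2 (hE.sub _ _ _ (by omega) (by omega) (by omega))

/-- a rule for cutting words, adapted to the long variables at scale `ρ` -/
structure Scale {e n Λ : ℕ} (S : Setup α ι e n Λ) (k r ρ : ℕ) where
  R : ℕ
  cut : List α → ℕ → Prop
  R_ge : 4 * ρ ≤ R
  R_le : R ≤ 5 * ρ
  loc : ∀ z z' i i', Eqv z i z' i' R → cut z i → cut z' i'
  fit : ∀ z i, cut z i → i + R ≤ z.length
  count : ∀ z a L (s : Finset ℕ), (∀ i ∈ s, a ≤ i ∧ i < a + L ∧ cut z i) →
    s.card ≤ 2 * k * (L / ρ + 1)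
  ns1 : ∀ Y, S.Lg Y → ∀ z s i, Eqv z s (S.H Y) 0 (S.H Y).length → cut z i →
    i + r < s ∨ s + r < i
  ns2 : ∀ X, S.Lg X → ∀ z s i, Eqv z s (S.H X) 0 (S.H X).length → cut z i →
    i + R + r < s + (S.H X).length ∨ s + (S.H X).length + r < i + R
  first : ∀ X, S.Lg X → ∃ i, i ≤ (e + 7) * ρ ∧ cut (S.H X) i
  last : ∀ X, S.Lg X → ∃ i, (S.H X).length ≤ i + (e + 7) * ρ ∧ cut (S.H X) i
  zone : ∀ z i, cut z i → ∃ Z, S.Lg Z ∧ ∃ j, Eqv z i (S.H Z) j R ∧ j + R ≤ (S.H Z).length ∧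
    (j ≤ (e + 7) * ρ ∨ (S.H Z).length ≤ j + (e + 7) * ρ)

theorem exists_scale [Fintype ι] {e n Λ : ℕ} (S : Setup α ι e n Λ) {k r ρ : ℕ}
    (hk : Fintype.card ι ≤ k) (hρ : (e + 1) * (2 * k * (2 * r + 1) + 2 * r) < ρ)
    (hΛ : (e + 7) * ρ ≤ Λ) : Nonempty (Scale S k r ρ) := by
  set J := 2 * k * (2 * r + 1) with hJ
  have h4 : (e + 1) * (J + 2 * r) = e * (J + 2 * r) + (J + 2 * r) := by ring
  have h7 : (e + 7) * ρ = e * ρ + 7 * ρ := by ring
  have hm : ∀ x : ι × Bool, S.Lg x.1 → ∃ j, j + (4 * ρ + J) ≤ (S.H x.1).length ∧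
      (if x.2 then (S.H x.1).length ≤ j + (e + 7) * ρ else j ≤ (e + 7) * ρ) ∧
      (∀ p, 1 ≤ p → p ≤ ρ → ¬ Eqv (S.H x.1) j (S.H x.1) (j + p) (4 * ρ + J - p)) ∧
      ∀ f : ι × Bool, S.Lg f.1 → ∀ δ, δ ≤ 2 * r → ¬ Eqv (S.H x.1) (j + δ) (S.H f.1)
        (if f.2 then (S.H f.1).length - (4 * ρ + J) + r else r) (4 * ρ + J - 2 * r) := by
    rintro ⟨x, b⟩ hx
    have hl := S.long x hx
    obtain ⟨j, h1, h2, h3, h5⟩ := exists_marker (κ := ι × Bool) (k := k) (r := r) (ρ := ρ)
      (s := if b then (S.H x).length - (e * ρ + 4 * ρ + J) else J) (S.ap x)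
      (by simp; omega) (fun f => S.Lg f.1) (fun f => S.H f.1)
      (fun f => if f.2 then (S.H f.1).length - (4 * ρ + J) + r else r) (fun f => S.ap f.1)
      (fun f hf => by have := S.long f.1 hf; split_ifs <;> omega) hρ
      (by split_ifs <;> omega) (by split_ifs <;> omega)
    refine ⟨j, ?_, ?_, h3, h5⟩
    · simp only
      split_ifs at h2 <;> omega
    · simp only
      split_ifs at h1 h2 ⊢ <;> omega
  choose! pos p1 p2 p3 p4 using hm
  refine ⟨⟨4 * ρ + J, fun z i => ∃ x : ι × Bool, S.Lg x.1 ∧ Eqv z i (S.H x.1) (pos x) (4 * ρ + J),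
    by omega, by omega, ?_, ?_, ?_, ?_, ?_, ?_, ?_, ?_⟩⟩
  · rintro z z' i i' hE ⟨x, hx, h⟩
    exact ⟨x, hx, hE.symm.trans h⟩
  · rintro z i ⟨x, hx, h⟩
    exact h.fit (p1 x hx) (by omega)
  · intro z a L s hs
    have hex : ∀ i, i ∈ s → ∃ x : ι × Bool, S.Lg x.1 ∧ Eqv z i (S.H x.1) (pos x) (4 * ρ + J) :=
      fun i hi => (hs i hi).2.2
    obtain ⟨x0, _⟩ := S.ex
    haveI : Nonempty (ι × Bool) := ⟨(x0, true)⟩
    choose! f hf1 hf2 using hex
    have hρ0 : 0 < ρ := by omega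
    have : s.card ≤ ((Finset.univ : Finset (ι × Bool)) ×ˢ Finset.range (L / ρ + 1)).card := by
      apply Finset.card_le_card_of_injOn (fun i => (f i, (i - a) / ρ))
      · intro i hi
        have := hs i hi
        have h2 : (i - a) / ρ ≤ L / ρ := Nat.div_le_div_right (by omega)
        simp only [Finset.coe_product, Finset.coe_univ, Finset.coe_range, Set.mem_prod,
          Set.mem_univ, Set.mem_Iio, true_and]
        omega
      · have two : ∀ i ∈ s, ∀ i' ∈ s, i < i' → f i = f i' → (i - a) / ρ = (i' - a) / ρ → False := by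
          intro i hi i' hi' hlt hff hq
          have e1 := Nat.div_add_mod (i - a) ρ
          have e2 := Nat.div_add_mod (i' - a) ρ
          have e3 := Nat.mod_lt (i - a) hρ0
          have e4 := Nat.mod_lt (i' - a) hρ0
          have := hs i hi
          rw [hq] at e1
          have h2 := hf2 i' hi'
          rw [← hff] at h2
          exact p3 (f i) (hf1 i hi) (i' - i) (by omega) (by omega)
            (per_of_occ (hf2 i hi) h2 hlt.le (by omega))
        intro i hi i' hi' h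
        simp only [Prod.mk.injEq] at h
        rcases lt_trichotomy i i' with hlt | heq | hlt
        · exact (two i hi i' hi' hlt h.1 h.2).elim
        · exact heq
        · exact (two i' hi' i hi hlt h.1.symm h.2.symm).elim
    rw [Finset.card_product, Finset.card_univ, Fintype.card_prod, Fintype.card_bool,
      Finset.card_range] at this
    exact this.trans (Nat.mul_le_mul_right _ (by omega))
  · rintro Y hY z s i hE ⟨x, hx, h⟩
    by_contra hc
    have hl := S.long Y hY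
    refine p4 x hx (Y, false) hY (s + r - i) (by omega) ?_
    exact (h.symm.sub _ (s + r) _ (by omega) (by omega) (by omega)).trans
      (hE.sub _ _ _ (by omega) (by simp; omega) (by omega))
  · rintro X hX z s i hE ⟨x, hx, h⟩
    by_contra hc
    have hl := S.long X hX
    refine p4 x hx (X, true) hX (s + (S.H X).length + r - (4 * ρ + J) - i) (by omega) ?_
    exact (h.symm.sub _ (s + (S.H X).length + r - (4 * ρ + J)) _ (by omega) (by omega)
      (by omega)).trans (hE.sub _ _ _ (by omega) (by simp; omega) (by omega))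
  · intro X hX
    exact ⟨pos (X, false), by simpa using p2 (X, false) hX, (X, false), hX, Eqv.refl _ _ _⟩
  · intro X hX
    exact ⟨pos (X, true), by simpa using p2 (X, true) hX, (X, true), hX, Eqv.refl _ _ _⟩
  · rintro z i ⟨x, hx, h⟩
    refine ⟨x.1, hx, pos x, h, p1 x hx, ?_⟩
    have := p2 x hx
    split_ifs at this
    · exact Or.inr this
    · exact Or.inl this

end Pool.Agent.Lib.MP_493d38_lc.KV
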