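import Mathlib
import Pool.Agent.Lib.MP_493d38_lc.KV.Marker

namespace Pool.Agent.Lib.MP_493d38_lc.KV

open Classical

variable {α ι : Type} {e n Λ : ℕ} {S : Setup α ι e n Λ} {k r ρ : ℕ}

/-- the word around a context -/
def Setup.amb (S : Setup α ι e n Λ) (c : ι × List α × ι) : List α := S.H c.1 ++ c.2.1 ++ S.H c.2.2

/-- the position where the right variable of a context starts -/
def Setup.ys (S : Setup α ι e n Λ) (c : ι × List α × ι) : ℕ := (S.H c.1).length + c.2.1.length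

theorem Setup.amb_length (c : ι × List α × ι) :
    (S.amb c).length = S.ys c + (S.H c.2.2).length := by
  simp [Setup.amb, Setup.ys]; omega

theorem Setup.eqv_X (c : ι × List α × ι) : Eqv (S.amb c) 0 (S.H c.1) 0 (S.H c.1).length :=
  eqv_fst _ _ _

theorem Setup.eqv_Y (c : ι × List α × ι) :
    Eqv (S.amb c) (S.ys c) (S.H c.2.2) 0 (S.H c.2.2).length := eqv_thd _ _ _

theorem Setup.ys_le {c : ι × List α × ι} (hc : c ∈ S.Cx) :
    (S.H c.1).length ≤ S.ys c ∧ S.ys c ≤ (S.H c.1).length + n := by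
  have := (S.cx c hc).2.2
  unfold Setup.ys
  omega

namespace Scale

/-- first cut of a long variable -/
noncomputable def i0 (σ : Scale S k r ρ) (X : ι) : ℕ := sInf {i | σ.cut (S.H X) i}

/-- last cut of a long variable -/
noncomputable def i1 (σ : Scale S k r ρ) (X : ι) : ℕ :=
  Nat.findGreatest (σ.cut (S.H X)) (S.H X).length

/-- end of the part of the word around a context that depends on the context -/
noncomputable def cb (σ : Scale S k r ρ) (c : ι × List α × ι) : ℕ := S.ys c + σ.i0 c.2.2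

/-- the pieces of a context -/
noncomputable def PP (σ : Scale S k r ρ) (c : ι × List α × ι) : List (ℕ × ℕ) :=
  P (σ.cut (S.amb c)) (σ.i1 c.1) (σ.cb c)

/-- start of the last piece of a context -/
noncomputable def lp (σ : Scale S k r ρ) (c : ι × List α × ι) : ℕ :=
  ((σ.PP c).getD ((σ.PP c).length - 1) (0, 0)).1

variable (σ : Scale S k r ρ)

theorem cut_iff {z z' : List α} {i i' : ℕ} (h : Eqv z i z' i' σ.R) : σ.cut z i ↔ σ.cut z' i' :=
  ⟨σ.loc _ _ _ _ h, σ.loc _ _ _ _ h.symm⟩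

theorem cut_mid (l y t : List α) {i : ℕ} (h : i + σ.R ≤ y.length) :
    σ.cut (l ++ y ++ t) (l.length + i) ↔ σ.cut y i :=
  σ.cut_iff ((eqv_mid l y t).sub _ _ _ (by omega) (by omega) (by omega))

theorem i0_spec {X : ι} (hX : S.Lg X) : σ.cut (S.H X) (σ.i0 X) ∧ σ.i0 X ≤ (e + 7) * ρ ∧
    r < σ.i0 X ∧ σ.i0 X + σ.R ≤ (S.H X).length ∧ ∀ i, σ.cut (S.H X) i → σ.i0 X ≤ i := by
  obtain ⟨i, h1, h2⟩ := σ.first X hX
  have h3 : σ.cut (S.H X) (σ.i0 X) := Nat.sInf_mem (s := {i | σ.cut (S.H X) i}) ⟨i, h2⟩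
  have h4 : ∀ i, σ.cut (S.H X) i → σ.i0 X ≤ i := fun i hi => Nat.sInf_le hi
  have h5 := σ.ns1 X hX _ 0 _ (Eqv.refl _ _ _) h3
  exact ⟨h3, (h4 i h2).trans h1, by omega, σ.fit _ _ h3, h4⟩

theorem i1_spec {X : ι} (hX : S.Lg X) : σ.cut (S.H X) (σ.i1 X) ∧
    (S.H X).length ≤ σ.i1 X + (e + 7) * ρ ∧ σ.i1 X + σ.R ≤ (S.H X).length ∧
      ∀ i, σ.cut (S.H X) i → i ≤ σ.i1 X := by
  obtain ⟨i, h1, h2⟩ := σ.last X hX
  have h4 : ∀ i, σ.cut (S.H X) i → i ≤ σ.i1 X :=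
    fun i hi => Nat.le_findGreatest (by have := σ.fit _ _ hi; omega) hi
  have h3 : σ.cut (S.H X) (σ.i1 X) :=
    Nat.findGreatest_spec (m := i) (by have := σ.fit _ _ h2; omega) h2
  have := h4 i h2
  exact ⟨h3, by omega, σ.fit _ _ h3, h4⟩

theorem inner {c : ι × List α × ι} (hc : c ∈ S.Cx) {i : ℕ} (h1 : σ.i1 c.1 < i) (h2 : i < σ.cb c)
    (h : σ.cut (S.amb c) i) : (S.H c.1).length + r < i + σ.R ∧ i + r < S.ys c := by
  obtain ⟨hX, hY, _⟩ := S.cx c hc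
  obtain ⟨_, _, _, a4, a5⟩ := σ.i0_spec hY
  obtain ⟨_, _, _, b4⟩ := σ.i1_spec hX
  unfold cb at h2
  constructor
  · have := σ.ns2 _ hX _ 0 _ (S.eqv_X c) h
    by_contra hc'
    have := b4 i (σ.loc _ _ _ _ ((S.eqv_X c).sub i i _ (by omega) (by omega) (by omega)) h)
    omega
  · have := σ.ns1 _ hY _ _ _ (S.eqv_Y c) h
    by_contra hc'
    have := a5 (i - S.ys c)
      (σ.loc _ _ _ _ ((S.eqv_Y c).sub i _ _ (by omega) (by omega) (by omega)) h)
    omega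

theorem PP_mem (hr : r ≤ ρ) (hρ : 0 < ρ) {c : ι × List α × ι} (hc : c ∈ S.Cx) {q : ℕ × ℕ}
    (hq : q ∈ σ.PP c) :
    σ.i1 c.1 ≤ q.1 ∧ q.1 < q.2 ∧ q.2 ≤ σ.cb c ∧ σ.cut (S.amb c) q.1 ∧ σ.cut (S.amb c) q.2 ∧
      (∀ i, q.1 < i → i < q.2 → ¬ σ.cut (S.amb c) i) ∧ q.1 + r < S.ys c ∧
      (S.H c.1).length + r < q.2 + σ.R ∧ (q.2 ≠ σ.cb c → q.2 + r < S.ys c) := by
  obtain ⟨hX, hY, _⟩ := S.cx c hc
  obtain ⟨a1, _, a3, a4, _⟩ := σ.i0_spec hY
  obtain ⟨b1, _, b3, _⟩ := σ.i1_spec hX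
  obtain ⟨h1, h2, h3, h4, h5, h6⟩ := P_mem hq
  have := S.ys_le hc
  have := σ.R_ge
  have c1 : σ.cut (S.amb c) q.1 := by
    refine h4.elim (fun h => ?_) id
    rw [h]
    exact σ.loc _ _ _ _ ((S.eqv_X c).symm.sub _ _ _ (by omega) (by omega) (by omega)) b1
  have c2 : σ.cut (S.amb c) q.2 := by
    refine h5.elim (fun h => ?_) id
    rw [h]
    exact σ.loc _ _ _ _ ((S.eqv_Y c).symm.sub _ _ _ (by omega) (by unfold cb; omega) (by omega)) a1
  refine ⟨h1, h2, h3, c1, c2, h6, ?_, ?_, fun h => ?_⟩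
  · by_cases h : q.1 = σ.i1 c.1
    · omega
    · exact (σ.inner hc (by omega) (by omega) c1).2
  · by_cases h : q.2 = σ.cb c
    · unfold cb at h
      omega
    · exact (σ.inner hc (by omega) (by omega) c2).1
  · exact (σ.inner hc (by omega) (by omega) c2).2

theorem cb_spec {c : ι × List α × ι} (hc : c ∈ S.Cx) :
    σ.i1 c.1 < σ.cb c ∧ σ.cb c + σ.R ≤ (S.amb c).length ∧ σ.cb c ≤ S.ys c + (e + 7) * ρ ∧
      S.ys c + r < σ.cb c ∧ S.ys c ≤ σ.i1 c.1 + (e + 7) * ρ + n ∧ σ.i1 c.1 + σ.R ≤ S.ys c := by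
  obtain ⟨hX, hY, _⟩ := S.cx c hc
  obtain ⟨_, a2, a3, a4, _⟩ := σ.i0_spec hY
  obtain ⟨_, b2, b3, _⟩ := σ.i1_spec hX
  have := S.ys_le hc
  rw [S.amb_length]
  unfold cb
  omega

theorem PP_length (hn : n ≤ ρ) (hρ : 0 < ρ) {c : ι × List α × ι} (hc : c ∈ S.Cx) :
    (σ.PP c).length ≤ 14 * k + 1 := by
  refine (P_length _ _ _).trans (Nat.succ_le_succ ?_)
  have h1 := σ.count (S.amb c) ((S.H c.1).length - σ.R) (6 * ρ)
    ((Finset.Ioo (σ.i1 c.1) (σ.cb c)).filter (σ.cut (S.amb c))) (by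
      intro i hi
      simp only [Finset.mem_filter, Finset.mem_Ioo] at hi
      have := σ.inner hc hi.1.1 hi.1.2 hi.2
      have := S.ys_le hc
      have := σ.R_le
      exact ⟨by omega, by omega, hi.2⟩)
  rw [Nat.mul_div_cancel _ hρ] at h1
  omega

theorem lp_spec {c : ι × List α × ι} (hc : c ∈ S.Cx) :
    (σ.PP c)[(σ.PP c).length - 1]? = some (σ.lp c, σ.cb c) ∧ (σ.lp c, σ.cb c) ∈ σ.PP c ∧
      0 < (σ.PP c).length := by
  have h0 : 0 < (σ.PP c).length := P_pos _ (σ.cb_spec hc).1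
  have h1 : (σ.PP c)[(σ.PP c).length - 1]? = some (σ.PP c)[(σ.PP c).length - 1] :=
    List.getElem?_eq_getElem (by omega)
  have h2 := (P_idx _ _ h1).mpr (by unfold PP at *; omega)
  have h3 : (σ.PP c)[(σ.PP c).length - 1]? = some (σ.lp c, σ.cb c) := by
    rw [h1, ← h2]
    unfold lp
    rw [List.getD_eq_getElem _ _ (by omega)]
  exact ⟨h3, List.mem_of_getElem? h3, h0⟩

theorem rew_min (ψ : List α → ℕ × ℕ → List α) (hd tl : ι → List α)
    (χ : ι × List α × ι → ℕ × ℕ → List α)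
    (hcore : ∀ X, S.Lg X → ∀ l t : List α, ∀ q ∈ P (σ.cut (S.H X)) (σ.i0 X) (σ.i1 X),
      ψ (l ++ S.H X ++ t) (l.length + q.1, l.length + q.2) = ψ (S.H X) q)
    (hctx : ∀ c ∈ S.Cx, ∀ l t : List α, ∀ q ∈ σ.PP c,
      ψ (l ++ S.amb c ++ t) (l.length + q.1, l.length + q.2) = χ c q)
    (hχ : ∀ c ∈ S.Cx, ((σ.PP c).map (χ c)).flatten = tl c.1 ++ c.2.1 ++ hd c.2.2)
    (hle : ∀ X, S.Lg X → (hd X).length +
      (img (ψ (S.H X)) (σ.cut (S.H X)) (σ.i0 X) (σ.i1 X)).length + (tl X).length ≤ (S.H X).length)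
    (X : ι) (hX : S.Lg X) : (S.H X).length ≤ (hd X).length +
      (img (ψ (S.H X)) (σ.cut (S.H X)) (σ.i0 X) (σ.i1 X)).length + (tl X).length := by
  have := S.min ⟨σ.cut, ψ, σ.i0, σ.i1, hd,
    fun X => img (ψ (S.H X)) (σ.cut (S.H X)) (σ.i0 X) (σ.i1 X), tl, ?_, ?_, ?_, ?_⟩
    (by simpa [Nat.add_assoc] using hle) X hX
  · simpa [Nat.add_assoc] using this
  · intro X hX
    obtain ⟨a1, _⟩ := σ.i0_spec hX
    obtain ⟨_, _, b3, b4⟩ := σ.i1_spec hX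
    exact ⟨b4 _ a1, by omega⟩
  · intro X hX l t
    obtain ⟨a1, _, _, a4, _⟩ := σ.i0_spec hX
    obtain ⟨b1, _, b3, _⟩ := σ.i1_spec hX
    exact ⟨(σ.cut_mid l _ t a4).mpr a1, (σ.cut_mid l _ t b3).mpr b1⟩
  · intro X hX l t
    obtain ⟨_, _, b3, _⟩ := σ.i1_spec hX
    exact img_shift (fun i _ _ => σ.cut_mid l _ t (by omega)) (hcore X hX l t)
  · intro c hc l t
    have := σ.cb_spec hc
    rw [← hχ c hc]
    exact img_shift (ψ := χ c) (c := σ.cut (S.amb c)) (b := σ.cb c)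
      (fun i _ _ => σ.cut_mid l (S.amb c) t (by omega)) (hctx c hc l t)

end Scale

theorem sl_mid (l y t : List α) {u v : ℕ} (h : v ≤ y.length) :
    sl (l ++ y ++ t) (l.length + u) (l.length + v) = sl y u v := by
  by_cases huv : u ≤ v
  · exact sl_eq_of_eqv (by omega) ((eqv_mid l y t).sub _ _ _ (by omega) (by omega) (by omega))
  · simp [sl, show l.length + v - (l.length + u) = 0 by omega, show v - u = 0 by omega]

end Pool.Agent.Lib.MP_493d38_lc.KV
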