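import Mathlib
import Pool.Agent.Lib.MP_493d38_lc.KV.Ctx

namespace Pool.Agent.Lib.MP_493d38_lc.KV

open Classical

variable {α ι : Type} {e n Λ : ℕ} {S : Setup α ι e n Λ} {k r ρ : ℕ}

/-- the context is visible at distance `o` from the left end of `Z` -/
def Setup.HL (S : Setup α ι e n Λ) (s θ : ℕ) (c : ι × List α × ι) (Z : ι) (o : ℕ) : Prop :=
  S.Lg Z ∧ s ≤ o ∧ o ≤ 5 * θ ∧ ∃ a, a + o = S.ys c ∧ Eqv (S.H Z) 0 (S.amb c) a (o + 2 * θ)

/-- the context is visible at distance `o` from the right end of `Z` -/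
def Setup.HR (S : Setup α ι e n Λ) (s θ : ℕ) (c : ι × List α × ι) (Z : ι) (o : ℕ) : Prop :=
  S.Lg Z ∧ s ≤ o ∧ o ≤ 5 * θ ∧ ∃ t a, t + 2 * θ + o = (S.H Z).length ∧
    a + 2 * θ = (S.H c.1).length ∧ Eqv (S.H Z) t (S.amb c) a (2 * θ + o)

/-- contexts visible near an end of a long variable -/
noncomputable def Setup.A1 (S : Setup α ι e n Λ) (s θ : ℕ) : Finset (ι × List α × ι) :=
  S.Cx.filter (fun c => (∃ Z o, S.HL s θ c Z o) ∨ (∃ Z o, S.HR s θ c Z o))

theorem Setup.mem_A1 {s θ : ℕ} {c : ι × List α × ι} : c ∈ S.A1 s θ ↔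
    c ∈ S.Cx ∧ ((∃ Z o, S.HL s θ c Z o) ∨ (∃ Z o, S.HR s θ c Z o)) := Finset.mem_filter

theorem card_three [Fintype ι] (hk : Fintype.card ι ≤ k) (C : Finset (ι × List α × ι)) {θ : ℕ}
    (hθ : 0 < θ) (Hh : ι × List α × ι → ι → ℕ → Prop) (hb : ∀ c Z o, Hh c Z o → o ≤ 5 * θ)
    (two : ∀ X w w' Y Z o, (X, w, Y) ∈ C → (X, w', Y) ∈ C → Hh (X, w, Y) Z o →
      Hh (X, w', Y) Z o → w = w')
    (three : ∀ X w1 w2 w3 Y Z o1 o2 o3, (X, w1, Y) ∈ C → (X, w2, Y) ∈ C → (X, w3, Y) ∈ C →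
      Hh (X, w1, Y) Z o1 → Hh (X, w2, Y) Z o2 → Hh (X, w3, Y) Z o3 → o1 < o2 → o2 < o3 →
      o3 ≤ o1 + θ → w2 = w3) :
    (C.filter (fun c => ∃ Z o, Hh c Z o)).card ≤ 12 * k ^ 3 := by
  set A := C.filter (fun c => ∃ Z o, Hh c Z o) with hA
  rcases A.eq_empty_or_nonempty with h0 | ⟨c0, _⟩
  · rw [h0]; simp
  haveI : Nonempty ι := ⟨c0.1⟩
  have hex : ∀ c, c ∈ A → ∃ Z o, Hh c Z o := fun c hc => (Finset.mem_filter.mp hc).2
  choose! Z o hZ using hex
  have := Finset.card_le_mul_card_image_of_maps_to (s := A)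
    (t := (Finset.univ : Finset (ι × ι × ι)) ×ˢ Finset.range 6)
    (f := fun c => ((c.1, c.2.2, Z c), o c / θ)) (by
      intro c hc
      have h1 : o c / θ ≤ 5 := by
        have := Nat.div_le_div_right (c := θ) (hb _ _ _ (hZ c hc))
        rwa [Nat.mul_div_cancel _ hθ] at this
      simp; omega) 2 (by
      intro b _
      by_contra hc
      obtain ⟨⟨X1, w1, Y1⟩, h1, ⟨X2, w2, Y2⟩, h2, ⟨X3, w3, Y3⟩, h3, n12, n13, n23⟩ :=
        Finset.two_lt_card.mp (not_le.mp hc)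
      simp only [Finset.mem_filter] at h1 h2 h3
      have e12 := h1.2.trans h2.2.symm
      have e13 := h1.2.trans h3.2.symm
      simp only [Prod.mk.injEq] at e12 e13
      obtain ⟨⟨rfl, rfl, z12⟩, q12⟩ := e12
      obtain ⟨⟨rfl, rfl, z13⟩, q13⟩ := e13
      have g1 := hZ _ h1.1
      have g2 := hZ _ h2.1
      have g3 := hZ _ h3.1
      rw [← z12] at g2
      rw [← z13] at g3
      have c1 := (Finset.mem_filter.mp h1.1).1
      have c2 := (Finset.mem_filter.mp h2.1).1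
      have c3 := (Finset.mem_filter.mp h3.1).1
      have m12 : w1 ≠ w2 := fun h => n12 (by rw [h])
      have m13 : w1 ≠ w3 := fun h => n13 (by rw [h])
      have m23 : w2 ≠ w3 := fun h => n23 (by rw [h])
      generalize o (X1, w1, Y1) = o1 at *
      generalize o (X1, w2, Y1) = o2 at *
      generalize o (X1, w3, Y1) = o3 at *
      have d1 := Nat.div_add_mod o1 θ
      have d2 := Nat.div_add_mod o2 θ
      have d3 := Nat.div_add_mod o3 θ
      have l1 := Nat.mod_lt o1 hθ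
      have l2 := Nat.mod_lt o2 hθ
      have l3 := Nat.mod_lt o3 hθ
      rw [← q12] at d2
      rw [← q13] at d3
      have k12 : o1 ≠ o2 := fun h => m12 (two _ _ _ _ _ _ c1 c2 g1 (h ▸ g2))
      have k13 : o1 ≠ o3 := fun h => m13 (two _ _ _ _ _ _ c1 c3 g1 (h ▸ g3))
      have k23 : o2 ≠ o3 := fun h => m23 (two _ _ _ _ _ _ c2 c3 g2 (h ▸ g3))
      rcases lt_or_gt_of_ne k12 with a | a <;> rcases lt_or_gt_of_ne k13 with b | b <;>
        rcases lt_or_gt_of_ne k23 with c | c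
      · exact m23 (three _ _ _ _ _ _ _ _ _ c1 c2 c3 g1 g2 g3 a c (by omega))
      · exact m23 (three _ _ _ _ _ _ _ _ _ c1 c3 c2 g1 g3 g2 b c (by omega)).symm
      · omega
      · exact m12 (three _ _ _ _ _ _ _ _ _ c3 c1 c2 g3 g1 g2 b a (by omega))
      · exact m13 (three _ _ _ _ _ _ _ _ _ c2 c1 c3 g2 g1 g3 a b (by omega))
      · omega
      · exact m13 (three _ _ _ _ _ _ _ _ _ c2 c3 c1 g2 g3 g1 c b (by omega)).symm
      · exact m12 (three _ _ _ _ _ _ _ _ _ c3 c2 c1 g3 g2 g1 c a (by omega)).symm)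
  rw [Finset.card_product, Finset.card_univ, Fintype.card_prod, Fintype.card_prod,
    Finset.card_range] at this
  have h3 : Fintype.card ι * (Fintype.card ι * Fintype.card ι) ≤ k * (k * k) :=
    Nat.mul_le_mul hk (Nat.mul_le_mul hk hk)
  have h4 : k ^ 3 = k * (k * k) := by ring
  omega

theorem card_A1 [Fintype ι] (hk : Fintype.card ι ≤ k) {s θ : ℕ} (hs : (e + 1) * n < s)
    (hθ : e * s < 2 * θ) (hsθ : s ≤ θ) (hΛ : 2 * θ ≤ Λ) : (S.A1 s θ).card ≤ 24 * k ^ 3 := by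
  have hθ0 : 0 < θ := by omega
  have hL := card_three hk S.Cx hθ0 (S.HL s θ) (fun c Z o h => h.2.2.1) (by
      rintro X w w' Y Z o hc hc' ⟨_, h1, _, a, ha, hE⟩ ⟨_, _, _, a', ha', hE'⟩
      have := S.long _ (S.cx _ hc).1
      exact lemS_left (S.ap X) (S.cx _ hc).2.2 (S.cx _ hc').2.2 hs (by simp only at this; omega)
        (a := a + (o - s)) (a' := a' + (o - s)) (by simp only [Setup.ys] at ha; omega)
        (by simp only [Setup.ys] at ha'; omega)
        ((hE.symm.trans hE').sub _ _ _ (by omega) (by omega) (by omega))) (by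
      rintro X w1 w2 w3 Y Z o1 o2 o3 hc1 hc2 hc3 ⟨_, h1, _, a1, ha1, hE1⟩ ⟨_, h2, _, a2, ha2, hE2⟩
        ⟨_, h3, _, a3, ha3, hE3⟩ l12 l23 l13
      have lX := S.long _ (S.cx _ hc1).1
      have lY := S.long _ (S.cx _ hc1).2.1
      simp only at lX lY
      have f : ∀ w a o, a + o = S.ys (X, w, Y) →
          Eqv (S.H Z) 0 (S.amb (X, w, Y)) a (o + 2 * θ) → Eqv (S.H Z) o (S.H Y) 0 (2 * θ) :=
        fun w a o ha hE => (hE.sub o (S.ys (X, w, Y)) _ (by omega) (by omega) (by omega)).trans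
          ((S.eqv_Y (X, w, Y)).sub _ _ _ le_rfl (by omega) (by simp only; omega))
      have := three_left (a2 := o2 - s) (a3 := o3 - s) (S.ap Y) (by omega) (f _ _ _ ha1 hE1)
        (f _ _ _ ha2 hE2) (f _ _ _ ha3 hE3) l12 l23 l13 hθ hsθ (by omega) (by omega)
      exact lemS_left (S.ap X) (S.cx _ hc2).2.2 (S.cx _ hc3).2.2 hs (by omega)
        (a := a2 + (o2 - s)) (a' := a3 + (o3 - s)) (by simp only [Setup.ys] at ha2; omega)
        (by simp only [Setup.ys] at ha3; omega)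
        (((hE2.symm.sub _ (o2 - s) s (by omega) (by omega) (by omega)).trans this).trans
          (hE3.sub _ _ _ (by omega) (by omega) (by omega))))
  have hR := card_three hk S.Cx hθ0 (S.HR s θ) (fun c Z o h => h.2.2.1) (by
      rintro X w w' Y Z o hc hc' ⟨_, h1, _, t, a, ht, ha, hE⟩ ⟨_, _, _, t', a', ht', ha', hE'⟩
      have := S.long _ (S.cx _ hc).2.1
      simp only at ha ha' this
      exact lemS_right (x := S.H X) (S.ap Y) (S.cx _ hc).2.2 (S.cx _ hc').2.2 hs (by omega)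
        ((hE.symm.sub _ (t + 2 * θ) s (by omega) (by omega) (by omega)).trans
          (hE'.sub _ _ _ (by omega) (by omega) (by omega)))) (by
      rintro X w1 w2 w3 Y Z o1 o2 o3 hc1 hc2 hc3 ⟨_, h1, _, t1, a1, ht1, ha1, hE1⟩
        ⟨_, h2, _, t2, a2, ht2, ha2, hE2⟩ ⟨_, h3, _, t3, a3, ht3, ha3, hE3⟩ l12 l23 l13
      have lY := S.long _ (S.cx _ hc1).2.1
      simp only at lY ha1 ha2 ha3
      have f : ∀ w t a o, a + 2 * θ = (S.H X).length →
          Eqv (S.H Z) t (S.amb (X, w, Y)) a (2 * θ + o) → Eqv (S.H Z) t (S.H X) a1 (2 * θ) :=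
        fun w t a o ha hE => (hE.sub t a _ le_rfl (by omega) (by omega)).trans
          ((S.eqv_X (X, w, Y)).sub _ _ _ (by omega) (by omega) (by simp only; omega))
      have := three_right (S.ap X) (by omega) (f _ _ _ _ ha3 hE3) (f _ _ _ _ ha2 hE2)
        (f _ _ _ _ ha1 hE1) (by omega) (by omega) (by omega) hθ hsθ
      exact lemS_right (x := S.H X) (S.ap Y) (S.cx _ hc2).2.2 (S.cx _ hc3).2.2 hs (by omega)
        (((hE2.symm.sub _ (t2 + 2 * θ) s (by omega) (by omega) (by omega)).trans this.symm).trans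
          (hE3.sub _ _ _ (by omega) (by omega) (by omega))))
  refine le_trans (Finset.card_le_card ?_)
    ((Finset.card_union_le _ _).trans ((Nat.add_le_add hL hR).trans (by omega)))
  intro c hc
  rw [Setup.mem_A1] at hc
  rw [Finset.mem_union, Finset.mem_filter, Finset.mem_filter]
  exact hc.2.imp (fun h => ⟨hc.1, h⟩) (fun h => ⟨hc.1, h⟩)

/-- the piece `q` of `z` has the same wide surroundings as a piece of a context -/
def Scale.FM (σ : Scale S k r ρ) (ζ : ℕ) (z : List α) (q : ℕ × ℕ) : Prop :=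
  ∃ c ∈ S.Cx, ∃ q' ∈ σ.PP c, q.2 - q.1 = q'.2 - q'.1 ∧ ∃ s s', q.1 = s + ζ ∧ q'.1 = s' + ζ ∧
    Eqv z s (S.amb c) s' (ζ + (q.2 - q.1) + ζ)

theorem Scale.FM_zone (σ : Scale S k r ρ) {s θ : ℕ} (hr : r ≤ ρ) (hρ : 0 < ρ) (hsr : s ≤ r)
    (hnr : n ≤ r) (hθ : (e + 7) * ρ + n ≤ θ) (hΛ : 12 * θ ≤ Λ) {X : ι} (hX : S.Lg X) {q : ℕ × ℕ}
    (h12 : q.1 < q.2) (h2 : q.2 + σ.R ≤ (S.H X).length)
    (hz : q.1 < 4 * θ ∨ (S.H X).length < q.2 + 4 * θ) {z : List α} {d : ℕ}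
    (hE : Eqv z d (S.H X) 0 (S.H X).length) (hF : σ.FM (4 * θ) z (d + q.1, d + q.2)) :
    ∃ c ∈ S.A1 s θ, ∃ q' ∈ σ.PP c, sl (S.H X) q.1 q.2 = sl (S.amb c) q'.1 q'.2 := by
  obtain ⟨c, hc, q', hq', hl, s1, s2, e1, e2, hF⟩ := hF
  simp only at hl e1 hF
  obtain ⟨m1, m2, m3, _, _, _, m7, m8, _⟩ := σ.PP_mem hr hρ hc hq'
  obtain ⟨k1, k2, k3, k4, k5, k6⟩ := σ.cb_spec hc
  have lX := S.long X hX
  have ly := S.ys_le hc
  have l1 := S.long _ (S.cx c hc).1
  refine ⟨c, Finset.mem_filter.mpr ⟨hc, ?_⟩, q', hq', sl_eq_of_eqv (by omega)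
    ((hE.symm.sub _ (d + q.1) _ (by omega) (by omega) (by omega)).trans
      (hF.sub _ _ _ (by omega) (by omega) (by omega)))⟩
  rcases hz with hz | hz
  · left
    refine ⟨X, q.1 + (S.ys c - q'.1), hX, by omega, by omega, q'.1 - q.1, by omega, ?_⟩
    exact (hE.symm.sub _ d _ le_rfl (by omega) (by omega)).trans
      (hF.sub _ _ _ (by omega) (by omega) (by omega))
  · right
    refine ⟨X, (S.H X).length - q.2 + q'.2 - (S.H c.1).length, hX, by omega, by omega,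
      q.2 + (S.H c.1).length - q'.2 - 2 * θ, (S.H c.1).length - 2 * θ, by omega, by omega, ?_⟩
    exact (hE.symm.sub _ (d + (q.2 + (S.H c.1).length - q'.2 - 2 * θ)) _ (by omega) (by omega)
      (by omega)).trans (hF.sub _ _ _ (by omega) (by omega) (by omega))

theorem Scale.FM_deep (σ : Scale S k r ρ) {ζ : ℕ} {y z : List α} {q : ℕ × ℕ} {d : ℕ}
    (h12 : q.1 < q.2) (h1 : ζ ≤ q.1) (h2 : q.2 + ζ ≤ y.length) (hE : Eqv z d y 0 y.length) :
    σ.FM ζ z (d + q.1, d + q.2) ↔ σ.FM ζ y q := by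
  constructor
  · rintro ⟨c, hc, q', hq', hl, s1, s2, e1, e2, hF⟩
    simp only at hl e1 hF
    refine ⟨c, hc, q', hq', by omega, q.1 - ζ, s2, by omega, e2, ?_⟩
    exact (hE.symm.sub _ s1 _ (by omega) (by omega) (by omega)).trans
      (hF.sub _ _ _ le_rfl (by omega) (by omega))
  · rintro ⟨c, hc, q', hq', hl, s1, s2, e1, e2, hF⟩
    refine ⟨c, hc, q', hq', by simp only; omega, d + s1, s2, by simp only; omega, e2, ?_⟩
    exact (hE.sub _ s1 _ (by omega) (by omega) (by simp only; omega)).trans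
      (hF.sub _ _ _ le_rfl (by omega) (by simp only; omega))

theorem Scale.ctx_flat (σ : Scale S k r ρ) {c : ι × List α × ι} (hc : c ∈ S.Cx) :
    ((σ.PP c).map (fun q => sl (S.amb c) q.1 q.2)).flatten =
      sl (S.H c.1) (σ.i1 c.1) (S.H c.1).length ++ c.2.1 ++ sl (S.H c.2.2) 0 (σ.i0 c.2.2) := by
  obtain ⟨hX, hY, _⟩ := S.cx c hc
  obtain ⟨_, _, _, a4, _⟩ := σ.i0_spec hY
  obtain ⟨_, _, b3, _⟩ := σ.i1_spec hX
  unfold Scale.PP
  rw [P_flatten _ _ (σ.cb_spec hc).1.le]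
  exact sl_ctx _ _ _ (by omega) (by omega)

/-- pieces near an end of a long variable come from the visible contexts -/
theorem Scale.zone_piece (σ : Scale S k r ρ) {s θ : ℕ} (hr : r ≤ ρ) (hρ : 0 < ρ) (hsr : s ≤ r)
    (hnr : n ≤ r) (hθ : (e + 7) * ρ + n ≤ θ) (hΛ : 12 * θ ≤ Λ) {Z : ι} (hZ : S.Lg Z) {u v : ℕ}
    (huv : u < v) (hu : σ.cut (S.H Z) u) (hv : σ.cut (S.H Z) v)
    (hno : ∀ i, u < i → i < v → ¬ σ.cut (S.H Z) i)
    (hz : u < 4 * θ ∨ (S.H Z).length < v + 4 * θ) :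
    ∃ c ∈ S.A1 s θ, ∃ q ∈ σ.PP c, sl (S.H Z) u v = sl (S.amb c) q.1 q.2 := by
  by_contra hcon
  let ψ : List α → ℕ × ℕ → List α := fun z q =>
    if sl z q.1 q.2 = sl (S.H Z) u v ∧ ¬ σ.FM (4 * θ) z q then [] else sl z q.1 q.2
  have hψ : ∀ z q, (ψ z q).length ≤ q.2 - q.1 := by
    intro z q
    simp only [ψ]
    split_ifs
    · simp
    · exact sl_length_le _ _ _
  have sum : ∀ X, (img (ψ (S.H X)) (σ.cut (S.H X)) (σ.i0 X) (σ.i1 X)).length =
      ((P (σ.cut (S.H X)) (σ.i0 X) (σ.i1 X)).map (fun q => (ψ (S.H X) q).length)).sum := by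
    intro X
    unfold img
    rw [List.length_flatten, List.map_map]
    rfl
  have ends : ∀ X, S.Lg X → (sl (S.H X) 0 (σ.i0 X)).length = σ.i0 X ∧
      (sl (S.H X) (σ.i1 X) (S.H X).length).length = (S.H X).length - σ.i1 X ∧
      σ.i0 X ≤ σ.i1 X ∧ σ.i1 X ≤ (S.H X).length := by
    intro X hX
    obtain ⟨a1, _, _, a4, _⟩ := σ.i0_spec hX
    obtain ⟨_, _, b3, b4⟩ := σ.i1_spec hX
    exact ⟨sl_length (by omega), sl_length le_rfl, b4 _ a1, by omega⟩
  have key := σ.rew_min ψ (fun X => sl (S.H X) 0 (σ.i0 X))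
    (fun X => sl (S.H X) (σ.i1 X) (S.H X).length) (fun c q => sl (S.amb c) q.1 q.2) (by
      intro X hX l t q hq
      obtain ⟨_, m2, m3, _⟩ := P_mem hq
      obtain ⟨_, _, b3, _⟩ := σ.i1_spec hX
      simp only [ψ]
      rw [sl_mid l _ t (by omega)]
      by_cases h0 : sl (S.H X) q.1 q.2 = sl (S.H Z) u v
      · have : σ.FM (4 * θ) (l ++ S.H X ++ t) (l.length + q.1, l.length + q.2) ↔
            σ.FM (4 * θ) (S.H X) q := by
          by_cases hz' : q.1 < 4 * θ ∨ (S.H X).length < q.2 + 4 * θ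
          · constructor
            · intro hF
              have := σ.FM_zone hr hρ hsr hnr hθ hΛ hX m2 (by omega) hz' (eqv_mid l _ t) hF
              rw [h0] at this
              exact absurd this hcon
            · intro hF
              have := σ.FM_zone hr hρ hsr hnr hθ hΛ hX m2 (by omega) hz' (d := 0)
                (Eqv.refl _ _ _) (by simpa using hF)
              rw [h0] at this
              exact absurd this hcon
          · exact σ.FM_deep m2 (by omega) (by omega) (eqv_mid l _ t)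
        simp only [this]
      · simp only [h0, false_and, if_false]) (by
      intro c hc l t q hq
      obtain ⟨m1, m2, m3, _⟩ := σ.PP_mem hr hρ hc hq
      obtain ⟨k1, k2, k3, k4, k5, k6⟩ := σ.cb_spec hc
      have l1 := S.long _ (S.cx c hc).1
      have l2 := S.long _ (S.cx c hc).2.1
      have l3 := S.ys_le hc
      have l4 := Setup.amb_length (S := S) c
      have : σ.FM (4 * θ) (l ++ S.amb c ++ t) (l.length + q.1, l.length + q.2) := by
        rw [σ.FM_deep m2 (by omega) (by omega) (eqv_mid l _ t)]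
        exact ⟨c, hc, q, hq, rfl, q.1 - 4 * θ, q.1 - 4 * θ, by omega, by omega, Eqv.refl _ _ _⟩
      simp only [ψ, this, not_true, and_false, if_false]
      exact sl_mid l _ t (by omega)) (fun c hc => σ.ctx_flat hc) (by
      intro X hX
      obtain ⟨e1, e2, e3, e4⟩ := ends X hX
      have := List.sum_le_sum (l := P (σ.cut (S.H X)) (σ.i0 X) (σ.i1 X))
        (f := fun q => (ψ (S.H X) q).length) (g := fun q => q.2 - q.1) (fun q _ => hψ _ q)
      rw [P_sum] at this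
      simp only [e1, e2, sum]
      omega) Z hZ
  obtain ⟨e1, e2, e3, e4⟩ := ends Z hZ
  have hmem : (u, v) ∈ P (σ.cut (S.H Z)) (σ.i0 Z) (σ.i1 Z) :=
    mem_P ((σ.i0_spec hZ).2.2.2.2 u hu) huv ((σ.i1_spec hZ).2.2.2 v hv) hu hv hno
  have hnF : ¬ σ.FM (4 * θ) (S.H Z) (u, v) := fun hF => hcon
    (σ.FM_zone hr hρ hsr hnr hθ hΛ hZ (q := (u, v)) huv (σ.fit _ _ hv) hz (d := 0)
      (Eqv.refl _ _ _) (by simpa using hF))
  have := List.sum_lt_sum (l := P (σ.cut (S.H Z)) (σ.i0 Z) (σ.i1 Z))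
    (fun q => (ψ (S.H Z) q).length) (fun q => q.2 - q.1) (fun q _ => hψ _ q)
    ⟨(u, v), hmem, by simp [ψ, hnF]; omega⟩
  rw [P_sum] at this
  simp only [e1, e2, sum] at key
  omega

/-- contexts whose last piece is a piece of a visible context -/
noncomputable def Scale.A2 (σ : Scale S k r ρ) (s θ : ℕ) : Finset (ι × List α × ι) :=
  S.Cx.filter (fun c => ∃ c' ∈ S.A1 s θ, ∃ q ∈ σ.PP c',
    sl (S.amb c) (σ.lp c) (σ.cb c) = sl (S.amb c') q.1 q.2)

theorem Scale.mem_A2 (σ : Scale S k r ρ) {s θ : ℕ} {c : ι × List α × ι} : c ∈ σ.A2 s θ ↔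
    c ∈ S.Cx ∧ ∃ c' ∈ S.A1 s θ, ∃ q ∈ σ.PP c',
      sl (S.amb c) (σ.lp c) (σ.cb c) = sl (S.amb c') q.1 q.2 := Finset.mem_filter

theorem Scale.card_A2 [Fintype ι] (σ : Scale S k r ρ) (hk : Fintype.card ι ≤ k) {s θ : ℕ}
    (hs : (e + 1) * n < s) (hθ : e * s < 2 * θ) (hsθ : s ≤ θ) (hΛ : 2 * θ ≤ Λ) (hr : r ≤ ρ)
    (hρ : 0 < ρ) (hsr : s ≤ r) : (σ.A2 s θ).card ≤ k * (k * (24 * k ^ 3 * (14 * k + 1))) := by
  have hn : n ≤ (e + 1) * n := Nat.le_mul_of_pos_left _ (by omega)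
  let L := (S.A1 s θ).biUnion (fun c => ((σ.PP c).map (fun q => sl (S.amb c) q.1 q.2)).toFinset)
  have hL : L.card ≤ 24 * k ^ 3 * (14 * k + 1) := by
    refine (Finset.card_biUnion_le_card_mul _ _ (14 * k + 1) ?_).trans
      (Nat.mul_le_mul_right _ (card_A1 hk hs hθ hsθ hΛ))
    intro c hc
    refine (List.toFinset_card_le _).trans ?_
    rw [List.length_map]
    exact σ.PP_length (by omega) hρ (Setup.mem_A1.mp hc).1
  have : (σ.A2 s θ).card ≤
      ((Finset.univ : Finset ι) ×ˢ ((Finset.univ : Finset ι) ×ˢ L)).card := by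
    apply Finset.card_le_card_of_injOn (fun c => (c.1, c.2.2, sl (S.amb c) (σ.lp c) (σ.cb c)))
    · intro c hc
      obtain ⟨_, c', hc', q, hq, h⟩ := σ.mem_A2.mp hc
      simp only [Finset.coe_product, Finset.coe_univ, Set.mem_prod, Set.mem_univ, true_and,
        Finset.mem_coe, L, Finset.mem_biUnion, List.mem_toFinset, List.mem_map]
      exact ⟨c', hc', q, hq, h.symm⟩
    · rintro ⟨X, w, Y⟩ hc ⟨X', w', Y'⟩ hc' h
      simp only [Prod.mk.injEq] at h
      obtain ⟨rfl, rfl, h⟩ := h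
      have c1 := (σ.mem_A2.mp hc).1
      have c2 := (σ.mem_A2.mp hc').1
      obtain ⟨_, _, _, _, _, _, m7, _⟩ := σ.PP_mem hr hρ c1 (σ.lp_spec c1).2.1
      obtain ⟨_, _, _, _, _, _, m7', _⟩ := σ.PP_mem hr hρ c2 (σ.lp_spec c2).2.1
      have k1 := σ.cb_spec c1
      have k2 := σ.cb_spec c2
      obtain ⟨e1, e2⟩ := eqv_of_sl_eq (by omega) (by omega) h
      have l1 := S.long _ (S.cx _ c1).1
      simp only [Scale.cb, Setup.ys] at m7 m7' e1 e2 l1
      have := lemS_left (S.ap X) (S.cx _ c1).2.2 (S.cx _ c2).2.2 hs (by omega)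
        (a := (S.H X).length + w.length - s) (a' := (S.H X).length + w'.length - s)
        (by simp only; omega) (by simp only; omega)
        (e2.sub _ _ _ (by omega) (by omega) (by omega))
      simp only at this
      rw [this]
  rw [Finset.card_product, Finset.card_product, Finset.card_univ] at this
  exact this.trans (Nat.mul_le_mul hk (Nat.mul_le_mul hk hL))

theorem Scale.cover (σ : Scale S k r ρ) {s θ : ℕ} (hr : r ≤ ρ) (hρ : 0 < ρ) (hsr : s ≤ r)
    (hnr : n ≤ r) (hθ : (e + 7) * ρ + n ≤ θ) (hΛ : 12 * θ ≤ Λ) {c : ι × List α × ι}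
    (hc : c ∈ S.Cx) {Z : ι} (hZ : S.Lg Z) {j i L : ℕ} (hE : Eqv (S.H Z) j (S.amb c) i L)
    (h1 : i + ((e + 7) * ρ + n) ≤ S.ys c) (h2 : S.ys c + (e + 7) * ρ + 5 * ρ ≤ i + L)
    (hz : j + L ≤ 4 * θ ∨ (S.H Z).length ≤ j + 4 * θ) : c ∈ σ.A2 s θ := by
  obtain ⟨m1, m2, _, m4, m5, m6, m7, _⟩ := σ.PP_mem hr hρ hc (σ.lp_spec hc).2.1
  obtain ⟨k1, k2, k3, k4, k5, k6⟩ := σ.cb_spec hc
  simp only at m1 m2 m4 m5 m6 m7
  have := σ.R_le
  have tr : ∀ x, σ.lp c ≤ x → x ≤ σ.cb c → (σ.cut (S.H Z) (j + (x - i)) ↔ σ.cut (S.amb c) x) :=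
    fun x a b => σ.cut_iff (hE.sub _ _ _ (by omega) (by omega) (by omega))
  obtain ⟨c', hc', q, hq, h⟩ := σ.zone_piece hr hρ hsr hnr hθ hΛ hZ
    (u := j + (σ.lp c - i)) (v := j + (σ.cb c - i)) (by omega) ((tr _ le_rfl m2.le).mpr m4)
    ((tr _ m2.le le_rfl).mpr m5) (fun x a b hx => by
      rw [show x = j + (x - j + i - i) by omega, tr _ (by omega) (by omega)] at hx
      exact m6 _ (by omega) (by omega) hx) (by omega)
  refine Finset.mem_filter.mpr ⟨hc, c', hc', q, hq, ?_⟩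
  rw [← h]
  exact sl_eq_of_eqv (by omega) (hE.symm.sub _ _ _ (by omega) (by omega) (by omega))

end Pool.Agent.Lib.MP_493d38_lc.KV
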