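import Mathlib
import Pool.Agent.Lib.MP_493d38_lc.KV.Zone

namespace Pool.Agent.Lib.MP_493d38_lc.KV

open Classical

variable {α ι : Type} {e n Λ : ℕ} {S : Setup α ι e n Λ} {k r0 ρ0 r ρ r' ρ' s θ : ℕ}

/-- size conditions on the base scale -/
structure Base (e n Λ r0 ρ0 s θ : ℕ) : Prop where
  hr : r0 ≤ ρ0
  hρ : 0 < ρ0
  hsr : s ≤ r0
  hnr : n ≤ r0
  hθ : (e + 7) * ρ0 + n ≤ θ
  hΛ : 12 * θ ≤ Λ

/-- size conditions on a higher scale -/
structure High (e n ρ0 r ρ θ : ℕ) : Prop where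
  hr : r ≤ ρ
  hρ : 0 < ρ
  hd : (e + 7) * ρ0 + 5 * ρ0 + n ≤ r
  hθ : (e + 7) * ρ + 5 * ρ ≤ 4 * θ

theorem Scale.single (σ0 : Scale S k r0 ρ0) (b : Base e n Λ r0 ρ0 s θ) (σ : Scale S k r ρ)
    (h : High e n ρ0 r ρ θ) {c : ι × List α × ι} (hc : c ∈ S.Cx) (hn : c ∉ σ0.A2 s θ) :
    σ.PP c = [(σ.i1 c.1, σ.cb c)] := by
  apply P_single (σ.cb_spec hc).1
  intro i h1 h2 hi
  obtain ⟨a1, a2⟩ := σ.inner hc h1 h2 hi
  obtain ⟨Z, hZ, j, hE, _, hj⟩ := σ.zone _ _ hi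
  have := S.ys_le hc
  have := h.hd
  have := h.hθ
  have := σ.R_le
  exact hn (σ0.cover b.hr b.hρ b.hsr b.hnr b.hθ b.hΛ hc hZ hE.symm (by omega) (by omega)
    (by omega))

theorem Scale.align (σ0 : Scale S k r0 ρ0) (b : Base e n Λ r0 ρ0 s θ) (σ : Scale S k r ρ)
    (h : High e n ρ0 r ρ θ) {c c' : ι × List α × ι} (hc : c ∈ S.Cx) (hn : c ∉ σ0.A2 s θ)
    (hc' : c' ∈ S.Cx) {q : ℕ × ℕ} (hq : q ∈ σ.PP c')
    (hl : σ.cb c - σ.i1 c.1 = q.2 - q.1)
    (hE : Eqv (S.amb c) (σ.i1 c.1) (S.amb c') q.1 (σ.cb c - σ.i1 c.1)) :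
    q.2 = σ.cb c' ∧ σ.i0 c.2.2 ≤ σ.i0 c'.2.2 + ((e + 7) * ρ0 + 5 * ρ0 + n) ∧
      σ.i0 c'.2.2 ≤ σ.i0 c.2.2 + ((e + 7) * ρ0 + 5 * ρ0 + n) := by
  obtain ⟨m1, m2, m3, _, _, _, _, _, m9⟩ := σ.PP_mem h.hr h.hρ hc' hq
  obtain ⟨k1, _, _, k4, _, k6⟩ := σ.cb_spec hc
  obtain ⟨hX', hY', _⟩ := S.cx c' hc'
  obtain ⟨_, a2, _, a4, _⟩ := σ.i0_spec hY'
  obtain ⟨_, b2, _⟩ := σ.i1_spec hX'
  have := S.ys_le hc'
  have := h.hd
  have := h.hθ
  have := h.hr
  have := σ.R_ge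
  have e1 : σ.cb c = S.ys c + σ.i0 c.2.2 := rfl
  have e2 : σ.cb c' = S.ys c' + σ.i0 c'.2.2 := rfl
  have hE' := hE.symm.sub (q.1 + (S.ys c - ((e + 7) * ρ0 + n) - σ.i1 c.1))
    (S.ys c - ((e + 7) * ρ0 + n)) ((e + 7) * ρ0 + n + (e + 7) * ρ0 + 5 * ρ0) (by omega)
    (by omega) (by omega)
  have left : q.1 + (S.ys c - σ.i1 c.1) + (e + 7) * ρ0 + 5 * ρ0 ≤ (S.H c'.1).length → False :=
    fun hx => hn (σ0.cover b.hr b.hρ b.hsr b.hnr b.hθ b.hΛ hc hX'
      (((S.eqv_X c').symm.sub (q.1 + (S.ys c - ((e + 7) * ρ0 + n) - σ.i1 c.1)) _ _ (by omega) rfl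
        (by omega)).trans hE') (by omega) (by omega) (by omega))
  have q2 : q.2 = σ.cb c' := by
    by_contra hx
    have := m9 hx
    exact left (by omega)
  refine ⟨q2, ?_, ?_⟩
  · by_contra hx
    exact left (by omega)
  · by_contra hx
    exact hn (σ0.cover b.hr b.hρ b.hsr b.hnr b.hθ b.hΛ hc hY'
      (((S.eqv_Y c').symm.sub (q.1 + (S.ys c - ((e + 7) * ρ0 + n) - σ.i1 c.1) - S.ys c') _ _
        (by omega) (by omega) (by omega)).trans hE') (by omega) (by omega) (by omega))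

theorem Scale.family (σ : Scale S k r ρ) (hr : r ≤ ρ) (hρ : 0 < ρ) {c c' : ι × List α × ι}
    (hc : c ∈ S.Cx) (hc' : c' ∈ S.Cx) {a a' L D d : ℕ} (hE : Eqv (S.amb c) a (S.amb c') a' L)
    (h1 : a + D ≤ S.ys c) (h2 : S.ys c + D ≤ a + L) (h3 : S.ys c + a' ≤ S.ys c' + a + d)
    (h4 : S.ys c' + a ≤ S.ys c + a' + d) (hd : d ≤ r)
    (hD : d + n + (e + 7) * ρ + 5 * ρ ≤ D) :
    sl (S.amb c) (σ.lp c) (σ.cb c) = sl (S.amb c') (σ.lp c') (σ.cb c') := by
  obtain ⟨m1, m2, _, m4, m5, m6, m7, _⟩ := σ.PP_mem hr hρ hc (σ.lp_spec hc).2.1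
  obtain ⟨n1, n2, _, n4, n5, n6, n7, _⟩ := σ.PP_mem hr hρ hc' (σ.lp_spec hc').2.1
  obtain ⟨_, _, k3, k4, k5, _⟩ := σ.cb_spec hc
  obtain ⟨_, _, l3, l4, l5, _⟩ := σ.cb_spec hc'
  simp only at m1 m2 m4 m5 m6 m7 n1 n2 n4 n5 n6 n7
  have := σ.R_le
  have tr : ∀ x x', x + a' = x' + a → a ≤ x → x + σ.R ≤ a + L →
      (σ.cut (S.amb c) x ↔ σ.cut (S.amb c') x') :=
    fun x x' e1 e2 e3 => σ.cut_iff (hE.sub _ _ _ e2 e1 e3)
  have e1 : σ.lp c + a' = σ.lp c' + a := by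
    rcases lt_trichotomy (σ.lp c + a') (σ.lp c' + a) with hx | hx | hx
    · exact absurd ((tr (σ.lp c' + a - a') _ (by omega) (by omega) (by omega)).mpr n4)
        (m6 _ (by omega) (by omega))
    · exact hx
    · exact absurd ((tr _ (σ.lp c + a' - a) (by omega) (by omega) (by omega)).mp m4)
        (n6 _ (by omega) (by omega))
  have e2 : σ.cb c + a' = σ.cb c' + a := by
    rcases lt_trichotomy (σ.cb c + a') (σ.cb c' + a) with hx | hx | hx
    · exact absurd ((tr _ (σ.cb c + a' - a) (by omega) (by omega) (by omega)).mp m5)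
        (n6 _ (by omega) (by omega))
    · exact hx
    · exact absurd ((tr (σ.cb c' + a - a') _ (by omega) (by omega) (by omega)).mpr n5)
        (m6 _ (by omega) (by omega))
  exact sl_eq_of_eqv (by omega) (hE.sub _ _ _ (by omega) (by omega) (by omega))

/-- the words forming the pieces of a context -/
noncomputable def Scale.kap (σ : Scale S k r ρ) (c : ι × List α × ι) : List (List α) :=
  (σ.PP c).map (fun q => sl (S.amb c) q.1 q.2)

/-- the pattern of equalities between the pieces of the contexts in `A` -/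
def Scale.st (σ : Scale S k r ρ) (A : Finset (ι × List α × ι)) :
    A × Fin (14 * k + 2) → A × Fin (14 * k + 2) → Prop :=
  fun a b => (σ.kap a.1)[(a.2 : ℕ)]? = (σ.kap b.1)[(b.2 : ℕ)]?

theorem two_scales (σ0 : Scale S k r0 ρ0) (b : Base e n Λ r0 ρ0 s θ) (σ : Scale S k r ρ)
    (h : High e n ρ0 r ρ θ) (τ : Scale S k r' ρ') (h' : High e n ρ0 r' ρ' θ)
    (hup : 12 * (k * ((e + 7) * ρ)) + 14 * ((e + 7) * ρ) ≤ r')
    (hΛ : 12 * (k * ((e + 7) * ρ)) + 14 * ((e + 7) * ρ) ≤ Λ)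
    (hst : σ.st (σ0.A2 s θ) = τ.st (σ0.A2 s θ)) : False := by
  have hd := h.hd
  have hr := h.hr
  have hρ := h.hρ
  have hd' := h'.hd
  have hr' := h'.hr
  have h7 : 7 * ρ ≤ (e + 7) * ρ := Nat.mul_le_mul_right _ (by omega)
  have lenσ : ∀ c ∈ S.Cx, (σ.kap c).length ≤ 14 * k + 1 := fun c hc => by
    rw [Scale.kap, List.length_map]; exact σ.PP_length (by omega) hρ hc
  have lenτ : ∀ c ∈ S.Cx, (τ.kap c).length ≤ 14 * k + 1 := fun c hc => by
    rw [Scale.kap, List.length_map]; exact τ.PP_length (by omega) h'.hρ hc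
  have hst' : ∀ c ∈ σ0.A2 s θ, ∀ c' ∈ σ0.A2 s θ, ∀ a a', a ≤ 14 * k + 1 → a' ≤ 14 * k + 1 →
      ((σ.kap c)[a]? = (σ.kap c')[a']? ↔ (τ.kap c)[a]? = (τ.kap c')[a']?) :=
    fun c hc c' hc' a a' ha ha' => iff_of_eq (congrFun (congrFun hst
      (⟨c, hc⟩, ⟨a, by omega⟩)) (⟨c', hc'⟩, ⟨a', by omega⟩))
  have len : ∀ c ∈ S.Cx, (σ.PP c).length = (τ.PP c).length := by
    intro c hc
    by_cases hA : c ∈ σ0.A2 s θ
    · have l1 := lenσ c hc
      have l2 := lenτ c hc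
      have g1 := (hst' c hA c hA _ _ l1 le_rfl).mp
        (by rw [List.getElem?_eq_none le_rfl, List.getElem?_eq_none l1])
      have g2 := (hst' c hA c hA _ _ l2 le_rfl).mpr
        (by rw [List.getElem?_eq_none le_rfl, List.getElem?_eq_none l2])
      rw [List.getElem?_eq_none l2, List.getElem?_eq_none_iff] at g1
      rw [List.getElem?_eq_none l1, List.getElem?_eq_none_iff] at g2
      simp only [Scale.kap, List.length_map] at g1 g2
      omega
    · rw [σ0.single b σ h hc hA, σ0.single b τ h' hc hA]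
      rfl
  have half : ∀ c ∈ S.Cx, c ∉ σ0.A2 s θ → ∀ c' ∈ S.Cx, ∀ (a a' : ℕ) z,
      (τ.kap c)[a]? = some z →
      (τ.kap c')[a']? = some z → (σ.kap c)[a]? = (σ.kap c')[a']? := by
    intro c hc hA c' hc' a a' z g g'
    have s1 := σ0.single b σ h hc hA
    have s2 := σ0.single b τ h' hc hA
    rw [Scale.kap, List.getElem?_map, Option.map_eq_some_iff] at g'
    obtain ⟨q, hq, rfl⟩ := g'
    rw [Scale.kap, s2] at g
    have a0 : a = 0 := by
      by_contra hx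
      rw [List.getElem?_eq_none (by simp; omega)] at g
      simp at g
    subst a0
    simp only [List.map_cons, List.map_nil, List.getElem?_cons_zero, Option.some.injEq] at g
    have hq' := List.mem_of_getElem? hq
    obtain ⟨_, m2, m3, _⟩ := τ.PP_mem hr' h'.hρ hc' hq'
    obtain ⟨k1, k2, _, k4, _, k6⟩ := τ.cb_spec hc
    obtain ⟨_, l2, _⟩ := τ.cb_spec hc'
    obtain ⟨e1, e2⟩ := eqv_of_sl_eq (by omega) (by omega) g
    obtain ⟨f1, f2, f3⟩ := σ0.align b τ h' hc hA hc' hq' e1 e2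
    have i1 : a' + 1 = (τ.PP c').length := (P_idx _ _ hq).mp f1
    have d1 : τ.cb c = S.ys c + τ.i0 c.2.2 := rfl
    have d2 : τ.cb c' = S.ys c' + τ.i0 c'.2.2 := rfl
    have := τ.R_ge
    have fam := σ.family hr hρ hc hc' e2 (D := r') (d := (e + 7) * ρ0 + 5 * ρ0 + n) (by omega)
      (by omega) (by omega) (by omega) hd (by omega)
    have j1 := (σ.lp_spec hc).1
    have j2 := (σ.lp_spec hc').1
    rw [show (σ.PP c).length - 1 = 0 by rw [s1]; rfl] at j1
    rw [show (σ.PP c').length - 1 = a' by rw [len c' hc']; omega] at j2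
    rw [Scale.kap, Scale.kap, List.getElem?_map, List.getElem?_map, j1, j2]
    simp only [Option.map_some, fam]
  have key : ∀ c ∈ S.Cx, ∀ c' ∈ S.Cx, ∀ (a a' : ℕ) z,
      (τ.kap c)[a]? = some z →
      (τ.kap c')[a']? = some z → (σ.kap c)[a]? = (σ.kap c')[a']? := by
    intro c hc c' hc' a a' z g g'
    by_cases hA : c ∈ σ0.A2 s θ
    · by_cases hA' : c' ∈ σ0.A2 s θ
      · have l1 := lenτ c hc
        have l2 := lenτ c' hc'
        have := (List.getElem?_eq_some_iff.mp g).1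
        have := (List.getElem?_eq_some_iff.mp g').1
        exact (hst' c hA c' hA' a a' (by omega) (by omega)).mpr (g.trans g'.symm)
      · exact (half c' hc' hA' c hc a' a z g' g).symm
    · exact half c hc hA c' hc' a a' z g g'
  have hφ : ∃ φ : List α → List α, (∀ z, (φ z).length ≤ 3 * ((e + 7) * ρ)) ∧
      ∀ c ∈ S.Cx, (τ.kap c).map φ = σ.kap c := by
    have ex : ∀ z : List α, ∃ y : List α, y.length ≤ 3 * ((e + 7) * ρ) ∧
        ∀ c ∈ S.Cx, ∀ a : ℕ, (τ.kap c)[a]? = some z → (σ.kap c)[a]? = some y := by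
      intro z
      by_cases hz : ∃ c ∈ S.Cx, ∃ a : ℕ, (τ.kap c)[a]? = some z
      · obtain ⟨c, hc, a, ha⟩ := hz
        have l1 : a < (σ.PP c).length := by
          have := (List.getElem?_eq_some_iff.mp ha).1
          rw [Scale.kap, List.length_map] at this
          rw [len c hc]; exact this
        obtain ⟨m1, m2, m3, _⟩ := σ.PP_mem hr hρ hc (List.getElem_mem l1)
        obtain ⟨_, _, k3, _, k5, _⟩ := σ.cb_spec hc
        refine ⟨sl (S.amb c) (σ.PP c)[a].1 (σ.PP c)[a].2, (sl_length_le _ _ _).trans (by omega),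
          fun c' hc' a' ha' => ?_⟩
        rw [key c' hc' c hc a' a z ha' ha, Scale.kap, List.getElem?_map,
          List.getElem?_eq_getElem l1]
        rfl
      · exact ⟨[], by simp, fun c hc a ha => absurd ⟨c, hc, a, ha⟩ hz⟩
    choose φ h1 h2 using ex
    refine ⟨φ, h1, fun c hc => List.ext_getElem? (fun a => ?_)⟩
    rw [List.getElem?_map]
    by_cases ha : a < (τ.kap c).length
    · rw [h2 _ c hc a (List.getElem?_eq_getElem ha), List.getElem?_eq_getElem ha]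
      rfl
    · rw [List.getElem?_eq_none (by omega), List.getElem?_eq_none]
      · rfl
      · rw [Scale.kap, List.length_map] at ha ⊢
        rw [len c hc]; omega
  obtain ⟨φ, φ1, φ2⟩ := hφ
  have lt : ∀ X, S.Lg X → (sl (S.H X) 0 (σ.i0 X)).length +
      (img (fun q => φ (sl (S.H X) q.1 q.2)) (τ.cut (S.H X)) (τ.i0 X) (τ.i1 X)).length +
      (sl (S.H X) (σ.i1 X) (S.H X).length).length < (S.H X).length := by
    intro X hX
    obtain ⟨_, a2, _⟩ := σ.i0_spec hX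
    obtain ⟨_, b2, _⟩ := σ.i1_spec hX
    obtain ⟨_, _, c3, _⟩ := τ.i1_spec hX
    have l1 := sl_length_le (S.H X) 0 (σ.i0 X)
    have l2 := sl_length_le (S.H X) (σ.i1 X) (S.H X).length
    have l3 : (img (fun q => φ (sl (S.H X) q.1 q.2)) (τ.cut (S.H X)) (τ.i0 X) (τ.i1 X)).length ≤
        (P (τ.cut (S.H X)) (τ.i0 X) (τ.i1 X)).length * (3 * ((e + 7) * ρ)) := by
      unfold img
      rw [List.length_flatten]
      have := List.sum_le_card_nsmul (List.map List.length (List.map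
        (fun q : ℕ × ℕ => φ (sl (S.H X) q.1 q.2)) (P (τ.cut (S.H X)) (τ.i0 X) (τ.i1 X))))
        (3 * ((e + 7) * ρ)) (by
          intro x hx
          simp only [List.mem_map] at hx
          obtain ⟨_, ⟨q, _, rfl⟩, rfl⟩ := hx
          exact φ1 _)
      simpa using this
    have l4 := P_length (τ.cut (S.H X)) (τ.i0 X) (τ.i1 X)
    have l5 := τ.count (S.H X) 0 (S.H X).length
      ((Finset.Ioo (τ.i0 X) (τ.i1 X)).filter (τ.cut (S.H X))) (by
        intro i hi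
        simp only [Finset.mem_filter, Finset.mem_Ioo] at hi
        exact ⟨by omega, by omega, hi.2⟩)
    have l6 := Nat.mul_le_mul_right (3 * ((e + 7) * ρ)) (l4.trans (Nat.succ_le_succ l5))
    have l7 : (S.H X).length / ρ' * ρ' ≤ (S.H X).length := Nat.div_mul_le_self _ _
    have l8 : (S.H X).length / ρ' * (12 * (k * ((e + 7) * ρ))) ≤ (S.H X).length / ρ' * ρ' :=
      Nat.mul_le_mul_left _ (by omega)
    have l9 := S.long X hX
    have l10 : 2 * ((2 * k * ((S.H X).length / ρ' + 1)).succ * (3 * ((e + 7) * ρ))) =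
        (S.H X).length / ρ' * (12 * (k * ((e + 7) * ρ))) + 12 * (k * ((e + 7) * ρ)) +
          6 * ((e + 7) * ρ) := by
      rw [Nat.succ_eq_add_one]; ring
    omega
  obtain ⟨X, hX⟩ := S.ex
  have := τ.rew_min (fun z q => φ (sl z q.1 q.2)) (fun X => sl (S.H X) 0 (σ.i0 X))
    (fun X => sl (S.H X) (σ.i1 X) (S.H X).length) (fun c q => φ (sl (S.amb c) q.1 q.2)) (by
      intro X hX l t q hq
      obtain ⟨_, _, m3, _⟩ := P_mem hq
      obtain ⟨_, _, b3, _⟩ := τ.i1_spec hX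
      simp only
      rw [sl_mid l _ t (by omega)]) (by
      intro c hc l t q hq
      obtain ⟨_, _, m3, _⟩ := τ.PP_mem hr' h'.hρ hc hq
      obtain ⟨_, k2, _⟩ := τ.cb_spec hc
      simp only
      rw [sl_mid l _ t (by omega)]) (by
      intro c hc
      rw [← σ.ctx_flat hc]
      have := φ2 c hc
      rw [Scale.kap, Scale.kap, List.map_map] at this
      rw [← this]
      rfl) (fun X hX => (lt X hX).le) X hX
  have := lt X hX
  omega

end Pool.Agent.Lib.MP_493d38_lc.KV
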