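import Mathlib
import Pool.Agent.Lib.MP_493d38_lc.KV.Main

namespace Pool.Agent.Lib.MP_493d38_lc.KV

open Classical

variable {α ι : Type}

/-- bound for the number of equality patterns -/
def TT (k : ℕ) : ℕ := 2 ^ ((k * (k * (24 * k ^ 3 * (14 * k + 1))) * (14 * k + 2)) ^ 2)

/-- ratio of consecutive scales -/
def QQ (k e : ℕ) : ℕ := (12 * k + 14) * (e + 7) * (8 * (k + 1) * (e + 1))

theorem pigeon {β : Type} [Fintype β] {c N : ℕ} (hc : Fintype.card β ≤ c) (hN : 2 ^ (c ^ 2) < N)
    (f : Fin N → β → β → Prop) : ∃ i j, i ≠ j ∧ f i = f j := by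
  apply Fintype.exists_ne_map_eq_of_card_lt
  rw [Fintype.card_fun, Fintype.card_fun, Fintype.card_prop, Fintype.card_fin, ← pow_mul,
    ← pow_two]
  exact lt_of_le_of_lt (Nat.pow_le_pow_right (by omega) (Nat.pow_le_pow_left hc 2)) hN

theorem no_setup [Fintype ι] {e n Λ k : ℕ} (S : Setup α ι e n Λ) (hk : Fintype.card ι ≤ k)
    (hΛ : 12 * (QQ k e ^ (TT k + 2) * ((e + 1) * n + 1)) ≤ Λ) : False := by
  set s := (e + 1) * n + 1 with hs
  set A := 8 * (k + 1) * (e + 1) with hA
  let r : ℕ → ℕ := fun j => QQ k e ^ j * s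
  have hA1 : 1 ≤ A := by rw [hA]; exact Nat.succ_le_of_lt (by positivity)
  have hQ1 : 1 ≤ QQ k e := by unfold QQ; exact Nat.succ_le_of_lt (by positivity)
  have r0 : r 0 = s := by simp [r]
  have mono : ∀ i j, i ≤ j → r i ≤ r j :=
    fun i j h => Nat.mul_le_mul_right _ (Nat.pow_le_pow_right hQ1 h)
  have up : ∀ i j, i < j → 12 * (k * ((e + 7) * (A * r i))) + 14 * ((e + 7) * (A * r i)) ≤ r j := by
    intro i j h
    refine le_trans (le_of_eq ?_) (mono (i + 1) j h)
    simp only [r, QQ, hA]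
    ring
  have rρ : ∀ j, r j ≤ A * r j := fun j => Nat.le_mul_of_pos_left _ hA1
  have r7 : ∀ j, 7 * (A * r j) ≤ (e + 7) * (A * r j) :=
    fun j => Nat.mul_le_mul_right _ (by omega)
  have hn : n ≤ (e + 1) * n := Nat.le_mul_of_pos_left _ (by omega)
  have hΛ' : 12 * r (TT k + 2) ≤ Λ := hΛ
  have ex : ∀ j, j < TT k + 2 → Nonempty (Scale S k (r j) (A * r j)) := by
    intro j hj
    have h1 := mono 0 j (by omega)
    have := up j _ hj
    refine exists_scale S hk ?_ (by omega)
    have h2 : 2 * k * (2 * r j + 1) + 2 * r j < 8 * (k + 1) * r j := by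
      have : k * 1 ≤ k * r j := Nat.mul_le_mul_left _ (by omega)
      nlinarith
    calc (e + 1) * (2 * k * (2 * r j + 1) + 2 * r j) < (e + 1) * (8 * (k + 1) * r j) :=
          Nat.mul_lt_mul_of_pos_left h2 (by omega)
      _ = A * r j := by rw [hA]; ring
  obtain ⟨σ0⟩ := ex 0 (by omega)
  have u0 := up 0 (TT k + 2) (by omega)
  have u1 := up 0 1 (by omega)
  have b : Base e n Λ (r 0) (A * r 0) s (r (TT k + 2)) := by
    have := rρ 0
    have := r7 0
    exact ⟨by omega, by omega, by omega, by omega, by omega, hΛ'⟩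
  have hi : ∀ j, j < TT k + 1 → High e n (A * r 0) (r (j + 1)) (A * r (j + 1)) (r (TT k + 2)) := by
    intro j hj
    have := rρ 0
    have := r7 0
    have := rρ (j + 1)
    have := r7 (j + 1)
    have := mono 1 (j + 1) (by omega)
    have := up (j + 1) (TT k + 2) (by omega)
    exact ⟨by omega, by omega, by omega, by omega⟩
  let σ : ∀ j : Fin (TT k + 1), Scale S k (r (j + 1)) (A * r (j + 1)) :=
    fun j => Classical.choice (ex (j + 1) (by have := j.2; omega))
  have hes : e * s ≤ (e + 7) * (A * r 0) := Nat.mul_le_mul (by omega) (by have := rρ 0; omega)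
  have hc := σ0.card_A2 hk (s := s) (θ := r (TT k + 2)) (by omega)
    (by have := rρ 0; have := r7 0; omega) (by have := mono 0 (TT k + 2) (by omega); omega)
    (by omega) b.hr b.hρ b.hsr
  have two : ∀ i j : Fin (TT k + 1), i < j →
      (σ i).st (σ0.A2 s (r (TT k + 2))) = (σ j).st (σ0.A2 s (r (TT k + 2))) → False := by
    intro i j hij hst
    have h1 : (i : ℕ) < j := hij
    have := up (i + 1) (TT k + 2) (by have := i.2; omega)
    exact two_scales σ0 b (σ i) (hi i i.2) (σ j) (hi j j.2) (up _ _ (by omega)) (by omega) hst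
  obtain ⟨i, j, hne, hf⟩ := pigeon
    (c := k * (k * (24 * k ^ 3 * (14 * k + 1))) * (14 * k + 2)) (N := TT k + 1)
    (by rw [Fintype.card_prod, Fintype.card_coe, Fintype.card_fin]
        exact Nat.mul_le_mul_right _ hc) (Nat.lt_succ_self _)
    (fun j : Fin (TT k + 1) => (σ j).st (σ0.A2 s (r (TT k + 2))))
  rcases lt_or_gt_of_ne hne with h | h
  · exact two i j h hf
  · exact two j i h hf.symm

/-- bound for the ratio between consecutive lengths of variables -/
def GG (k e n : ℕ) : ℕ := 12 * (QQ k e ^ (TT k + 2) * ((e + 1) * n + 1))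

theorem min_bound [Fintype ι] {U V : List (α ⊕ ι)} {h : ι → List α} (hm : MinSol U V h)
    {e n k : ℕ} (hap : ∀ x, Ap e (h x)) (hU : U.length ≤ n) (hV : V.length ≤ n)
    (hk : Fintype.card ι ≤ k) (x : ι) : (h x).length ≤ GG k e n ^ k := by
  by_contra hx
  have hG : 2 ≤ GG k e n := by
    have : 0 < QQ k e ^ (TT k + 2) * ((e + 1) * n + 1) := by unfold QQ; positivity
    unfold GG
    omega
  have step : ∀ j : Fin (k + 1), ∃ y, GG k e n ^ (j : ℕ) < (h y).length ∧
      ((j : ℕ) < k → (h y).length < GG k e n ^ ((j : ℕ) + 1)) := by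
    intro j
    by_cases hj : (j : ℕ) < k
    · by_contra hc
      push Not at hc
      have h1 : 1 ≤ GG k e n ^ (j : ℕ) := Nat.one_le_pow _ _ (by omega)
      have h2 : GG k e n ^ (j : ℕ) ≤ GG k e n ^ k := Nat.pow_le_pow_right (by omega) hj.le
      obtain ⟨S⟩ := setup_of_min hm hap hU hV h1 (Λ := GG k e n ^ ((j : ℕ) + 1))
        (fun y => by
          by_cases hy : GG k e n ^ (j : ℕ) < (h y).length
          · exact Or.inr (hc y hy).2
          · exact Or.inl (by omega)) x (by omega)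
      refine no_setup S hk ?_
      rw [pow_succ (GG k e n)]
      generalize GG k e n ^ (j : ℕ) = m at h1 ⊢
      unfold GG
      have : (e + 1) * (n * m) + 1 ≤ m * ((e + 1) * n + 1) := by nlinarith
      have := Nat.mul_le_mul_left (12 * QQ k e ^ (TT k + 2)) this
      calc _ = 12 * QQ k e ^ (TT k + 2) * ((e + 1) * (n * m) + 1) := by ring
        _ ≤ _ := this
        _ = _ := by ring
    · refine ⟨x, ?_, fun h => absurd h hj⟩
      rw [show (j : ℕ) = k by have := j.2; omega]
      omega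
  choose y hy1 hy2 using step
  have two : ∀ i j : Fin (k + 1), i < j → y i = y j → False := by
    intro i j hij hy
    have h1 : (i : ℕ) < j := hij
    have h2 := hy2 i (by have := j.2; omega)
    have h3 := hy1 j
    have h4 : GG k e n ^ ((i : ℕ) + 1) ≤ GG k e n ^ (j : ℕ) := Nat.pow_le_pow_right (by omega) h1
    rw [hy] at h2
    omega
  obtain ⟨i, j, hne, hf⟩ := Fintype.exists_ne_map_eq_of_card_lt y (by simp; omega)
  rcases lt_or_gt_of_ne hne with h | h
  · exact two i j h hf
  · exact two j i h hf.symm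

theorem exists_min [Fintype ι] {U V : List (α ⊕ ι)} {h : ι → List α} (hs : ev h U = ev h V) :
    ∃ g, MinSol U V g := by
  have ex : ∃ N, ∃ g : ι → List α, ev g U = ev g V ∧ ∑ x, (g x).length = N := ⟨_, h, hs, rfl⟩
  obtain ⟨g, h1, h2⟩ := Nat.find_spec ex
  exact ⟨g, h1, fun g' hg' => h2 ▸ Nat.find_min' ex ⟨g', hg', rfl⟩⟩

end Pool.Agent.Lib.MP_493d38_lc.KV
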